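import Pool.Agent.H61.Sm.M7a

/-! # M7b: packing densities are at most `1`

If `|dt2 v w| < volume K = volume (interior K)` (`Convex.addHaar_frontier`) then by Blichfeldt's
theorem (`MeasureTheory.exists_pair_mem_lattice_not_disjoint_vadd` with the lattice
`span ℤ {v, w}` and its fundamental domain of volume `|dt2 v w|`, `ZSpan`, for the set
`interior K`) two different translates of `interior K` meet. -/

set_option autoImplicit false

namespace Pool.H61.Sm

open MeasureTheory Set

private theorem M7b_li {v w : ℝ × ℝ} (h : v.1 * w.2 - v.2 * w.1 ≠ 0) :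
    LinearIndependent ℝ ![v, w] := by
  rw [LinearIndependent.pair_iff]
  intro s t hst
  have h1 : s * v.1 + t * w.1 = 0 := congrArg Prod.fst hst
  have h2 : s * v.2 + t * w.2 = 0 := congrArg Prod.snd hst
  constructor
  · have h3 : s * (v.1 * w.2 - v.2 * w.1) = 0 := by linear_combination w.2 * h1 - w.1 * h2
    exact (mul_eq_zero.1 h3).resolve_right h
  · have h3 : t * (v.1 * w.2 - v.2 * w.1) = 0 := by linear_combination v.1 * h2 - v.2 * h1
    exact (mul_eq_zero.1 h3).resolve_right h

private theorem M7b_unit :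
    volume (ZSpan.fundamentalDomain (Module.Basis.finTwoProd ℝ)) = 1 := by
  have h : ZSpan.fundamentalDomain (Module.Basis.finTwoProd ℝ) =
      Set.Ico (0 : ℝ) 1 ×ˢ Set.Ico (0 : ℝ) 1 := by
    ext x
    rw [ZSpan.mem_fundamentalDomain]
    simp [Fin.forall_fin_two]
  rw [h, Measure.volume_eq_prod, Measure.prod_prod]
  simp

private theorem M7b_vol {v w : ℝ × ℝ} (b : Module.Basis (Fin 2) ℝ (ℝ × ℝ)) (hb : ⇑b = ![v, w]) :
    volume (ZSpan.fundamentalDomain b) = ENNReal.ofReal |v.1 * w.2 - v.2 * w.1| := by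
  rw [ZSpan.measure_fundamentalDomain b volume (Module.Basis.finTwoProd ℝ), M7b_unit, mul_one, hb,
    Module.Basis.det_apply, Matrix.det_fin_two]
  simp only [Module.Basis.toMatrix_apply, Module.Basis.coe_finTwoProd_repr]
  simp [mul_comm w.1 v.2]

private theorem M7b_interior {K : Set (ℝ × ℝ)} (hc : Convex ℝ K) :
    volume K ≤ volume (interior K) := by
  have h1 : K ⊆ interior K ∪ frontier K := by
    rw [← closure_eq_interior_union_frontier]
    exact subset_closure
  calc volume K ≤ volume (interior K ∪ frontier K) := measure_mono h1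
    _ ≤ volume (interior K) + volume (frontier K) := measure_union_le _ _
    _ = volume (interior K) := by rw [hc.addHaar_frontier volume, add_zero]

theorem density_le_one {K : Set (ℝ × ℝ)} (hc : Convex ℝ K) (hk : IsCompact K) {v w : ℝ × ℝ}
    (h : Pack K v w) : (volume K).toReal / |v.1 * w.2 - v.2 * w.1| ≤ 1 := by
  have hd : 0 < |v.1 * w.2 - v.2 * w.1| := abs_pos.2 h.1
  rw [div_le_one hd]
  by_contra hlt
  push Not at hlt
  set b : Module.Basis (Fin 2) ℝ (ℝ × ℝ) :=
    basisOfLinearIndependentOfCardEqFinrank (M7b_li h.1) (by simp) with hbd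
  have hb : ⇑b = ![v, w] := by
    rw [hbd, coe_basisOfLinearIndependentOfCardEqFinrank]
  have h1 : volume (ZSpan.fundamentalDomain b) < volume (interior K) := by
    rw [M7b_vol b hb]
    refine lt_of_lt_of_le ?_ (M7b_interior hc)
    exact (ENNReal.ofReal_lt_iff_lt_toReal (abs_nonneg _) hk.measure_lt_top.ne).2 hlt
  have hct : Countable (Submodule.span ℤ (Set.range b)).toAddSubgroup := by
    change Countable (Submodule.span ℤ (Set.range b))
    infer_instance
  obtain ⟨x, y, hxy, hdj⟩ := exists_pair_mem_lattice_not_disjoint_vadd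
    (ZSpan.isAddFundamentalDomain' b volume) isOpen_interior.measurableSet.nullMeasurableSet h1
  rw [Set.not_disjoint_iff] at hdj
  obtain ⟨p, hp1, hp2⟩ := hdj
  obtain ⟨a, ha, hap⟩ := Set.mem_vadd_set.1 hp1
  obtain ⟨c, hcK, hcp⟩ := Set.mem_vadd_set.1 hp2
  have hz : ((x : ℝ × ℝ) - y) ∈ Submodule.span ℤ (Set.range b) := by
    exact Submodule.sub_mem _ x.2 y.2
  have hr : Set.range b = {v, w} := by
    rw [hb, Matrix.range_cons, Matrix.range_cons, Matrix.range_empty, Set.union_empty,
      Set.singleton_union]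
  have hz' : ((x : ℝ × ℝ) - y) ∈ Submodule.span ℤ ({v, w} : Set (ℝ × ℝ)) := by
    simpa only [← hr] using hz
  rw [Submodule.mem_span_pair] at hz'
  obtain ⟨m, n, hmn⟩ := hz'
  have hne : ¬ (m = 0 ∧ n = 0) := by
    rintro ⟨rfl, rfl⟩
    apply hxy
    rw [zero_smul, zero_smul, add_zero] at hmn
    exact Subtype.ext (sub_eq_zero.1 hmn.symm)
  refine h.2 m n hne a ha ?_
  have h2 : a + ((m : ℝ) • v + (n : ℝ) • w) = c := by
    have h3 : (m : ℝ) • v + (n : ℝ) • w = (x : ℝ × ℝ) - y := by
      rw [← hmn, Int.cast_smul_eq_zsmul, Int.cast_smul_eq_zsmul]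
    have h4 : (x : ℝ × ℝ) + a = (y : ℝ × ℝ) + c := hap.trans hcp.symm
    rw [h3]
    linear_combination (exp := 1) h4
  rw [h2]
  exact hcK

end Pool.H61.Sm
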