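import Pool.Agent.H61.Sm.M8
import Pool.Agent.H61.Rh.Gen

/-! # M9: Reinhardt's conjecture from the bound for the differential system -/

set_option autoImplicit false

namespace Pool.H61.Sm

open MeasureTheory Set

private theorem M9_sqrt32 : Real.sqrt 32 = 4 * r2 := by
  unfold r2
  rw [show (32 : ℝ) = 4 ^ 2 * 2 by norm_num, Real.sqrt_mul (by norm_num),
    Real.sqrt_sq (by norm_num)]

private theorem M9_sqrt8 : Real.sqrt 8 = 2 * r2 := by
  unfold r2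
  rw [show (8 : ℝ) = 2 ^ 2 * 2 by norm_num, Real.sqrt_mul (by norm_num),
    Real.sqrt_sq (by norm_num)]

private theorem M9_r2 : (141421 / 100000 : ℝ) < r2 := by
  unfold r2
  rw [Real.lt_sqrt (by norm_num)]
  norm_num

private theorem M9_cR : cR = (8 - 4 * r2 - Real.log 2) / (2 * r2 - 1) := by
  unfold cR
  rw [M9_sqrt32, M9_sqrt8]

theorem cR_pos : 0 < cR := by
  have h1 := r2_gt
  have h2 := r2_lt
  have h3 := Real.log_two_lt_d9
  rw [M9_cR]
  apply div_pos <;> linarith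

theorem cR_le : cR ≤ 9025 / 10000 := by
  have h1 := M9_r2
  have h3 := Real.log_two_gt_d9
  rw [M9_cR, div_le_iff₀ (by linarith)]
  linarith

theorem all_bodies (H : Rh.RSBound cR) (K : Set (ℝ × ℝ)) (hc : Convex ℝ K) (hk : IsCompact K)
    (hi : (interior K).Nonempty) (hs : ∀ x ∈ K, -x ∈ K) :
    cR ≤ sSup {d : ℝ | ∃ v w : ℝ × ℝ, v.1 * w.2 - v.2 * w.1 ≠ 0 ∧
      (∀ m n : ℤ, ¬ (m = 0 ∧ n = 0) →
        ∀ x ∈ interior K, x + ((m : ℝ) • v + (n : ℝ) • w) ∉ interior K) ∧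
      d = (volume K).toReal / |v.1 * w.2 - v.2 * w.1|} := by
  set A := {d : ℝ | ∃ v w : ℝ × ℝ, v.1 * w.2 - v.2 * w.1 ≠ 0 ∧
      (∀ m n : ℤ, ¬ (m = 0 ∧ n = 0) →
        ∀ x ∈ interior K, x + ((m : ℝ) • v + (n : ℝ) • w) ∉ interior K) ∧
      d = (volume K).toReal / |v.1 * w.2 - v.2 * w.1|} with hA
  have hb : BddAbove A := by
    refine ⟨1, ?_⟩
    rintro d ⟨v, w, hvw, hp, rfl⟩
    exact density_le_one hc hk ⟨hvw, hp⟩
  have key : ∀ c', 0 ≤ c' → c' < cR → c' ≤ sSup A := by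
    intro c' h0 h1
    obtain ⟨v, w, hvw, hp, hd⟩ := Rh.packing_R2_gen cR_le H h0 h1 K hc hk hi hs
    exact hd.trans (le_csSup hb ⟨v, w, hvw, hp, rfl⟩)
  by_contra hcon
  have hlt := not_le.1 hcon
  have hpos := cR_pos
  have h1 : max 0 (sSup A) < cR := max_lt hpos hlt
  have h2 := key ((max 0 (sSup A) + cR) / 2)
    (by have := le_max_left 0 (sSup A); linarith) (by linarith)
  have h3 := le_max_right 0 (sSup A)
  linarith

theorem main (H : Rh.RSBound cR) :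
    (∀ K : Set (ℝ × ℝ), Convex ℝ K → IsCompact K → (interior K).Nonempty →
        (∀ x ∈ K, -x ∈ K) →
        (8 - Real.sqrt 32 - Real.log 2) / (Real.sqrt 8 - 1) ≤
          sSup {d : ℝ | ∃ v w : ℝ × ℝ, v.1 * w.2 - v.2 * w.1 ≠ 0 ∧
            (∀ m n : ℤ, ¬ (m = 0 ∧ n = 0) →
              ∀ x ∈ interior K, x + ((m : ℝ) • v + (n : ℝ) • w) ∉ interior K) ∧
            d = (MeasureTheory.volume K).toReal / |v.1 * w.2 - v.2 * w.1|}) ∧
    (∃ K : Set (ℝ × ℝ), Convex ℝ K ∧ IsCompact K ∧ (interior K).Nonempty ∧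
        (∀ x ∈ K, -x ∈ K) ∧
        sSup {d : ℝ | ∃ v w : ℝ × ℝ, v.1 * w.2 - v.2 * w.1 ≠ 0 ∧
            (∀ m n : ℤ, ¬ (m = 0 ∧ n = 0) →
              ∀ x ∈ interior K, x + ((m : ℝ) • v + (n : ℝ) • w) ∉ interior K) ∧
            d = (MeasureTheory.volume K).toReal / |v.1 * w.2 - v.2 * w.1|} =
          (8 - Real.sqrt 32 - Real.log 2) / (Real.sqrt 8 - 1)) := by
  refine ⟨fun K hc hk hi hs => all_bodies H K hc hk hi hs, K0, K0_convex, K0_compact,
    octagon_interior, fun x hx => K0_neg hx, ?_⟩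
  refine le_antisymm (Real.sSup_le ?_ cR_pos.le)
    (all_bodies H K0 K0_convex K0_compact octagon_interior fun x hx => K0_neg hx)
  rintro d ⟨v, w, hvw, hp, rfl⟩
  exact octagon_density ⟨hvw, hp⟩

end Pool.H61.Sm
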