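import Mathlib

/-!
# The smoothed octagon (MP_8c99c3_co, second half of S10031): definitions

`rot` is the rotation by 45 degrees.  `uc z`, `vc z` are `1 - n·z` for the unit normals
`n = (√2/2, -√2/2)` and `n = (0, 1)` (the sides number `-1` and `2` of the regular octagon with
inradius `1`, side number `0` is `x = 1`, side number `1` is `(√2/2) (x + y) = 1`).
The corner between the sides `0` and `1` is smoothed by the hyperbola `uc * vc = √2/4`,
`1/2 ≤ uc ≤ √2/2`, whose tangent at `uc = t` is `uc / t + 2√2 t vc = 2`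
(`t = 1/2` is side `0`, `t = √2/2` is side `1`).
The smoothed octagon is the set `K0` of the points all of whose rotations satisfy `C0`.
The determinant of the critical lattices is `4 * De`, `De = √2 - 1/2`, and the area is
`16 - 8√2 - 2 log 2`.
-/

set_option autoImplicit false

namespace Pool.H61.Sm

/-- `√2` -/
noncomputable def r2 : ℝ := Real.sqrt 2

/-- rotation by 45 degrees -/
noncomputable def rot (z : ℝ × ℝ) : ℝ × ℝ := (r2 / 2 * (z.1 - z.2), r2 / 2 * (z.1 + z.2))

/-- first coordinate with respect to the asymptotes of the hyperbola -/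
noncomputable def uc (z : ℝ × ℝ) : ℝ := 1 - r2 / 2 * (z.1 - z.2)

/-- second coordinate with respect to the asymptotes of the hyperbola -/
def vc (z : ℝ × ℝ) : ℝ := 1 - z.2

/-- the tangent half planes at the corner between the sides `0` and `1` -/
def C0 (z : ℝ × ℝ) : Prop :=
  ∀ t : ℝ, 1 / 2 ≤ t → t ≤ r2 / 2 → 2 ≤ uc z / t + 2 * r2 * t * vc z

/-- the smoothed octagon -/
def K0 : Set (ℝ × ℝ) := {z | ∀ k : ℕ, C0 (rot^[k] z)}

/-- cross product -/
def dt2 (z w : ℝ × ℝ) : ℝ := z.1 * w.2 - z.2 * w.1

/-- determinant of the inscribed hexagons -/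
noncomputable def De : ℝ := r2 - 1 / 2

/-- the sector between the directions `0` and `45` degrees -/
def Cone (z : ℝ × ℝ) : Prop := 0 ≤ z.2 ∧ z.2 ≤ z.1

/-- the boundary of the smoothed octagon in the sector: `vc = hf uc` -/
noncomputable def hf (u : ℝ) : ℝ :=
  if u ≤ 1 / 2 then r2 * (1 - u) else if u ≤ r2 / 2 then r2 / 4 / u else 1 - r2 / 2 * u

lemma r2_sq : r2 ^ 2 = 2 := by unfold r2; exact Real.sq_sqrt (by norm_num)

lemma r2_mul : r2 * r2 = 2 := by have := r2_sq; nlinarith

lemma r2_pos : 0 < r2 := by unfold r2; exact Real.sqrt_pos.mpr (by norm_num)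

lemma r2_gt : (14142 / 10000 : ℝ) < r2 := by
  unfold r2; rw [Real.lt_sqrt (by norm_num)]; norm_num

lemma r2_lt : r2 < (14143 / 10000 : ℝ) := by
  unfold r2; rw [Real.sqrt_lt' (by norm_num)]; norm_num

end Pool.H61.Sm
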