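import Pool.Agent.H61.Sm.Defs

/-! # M1: rotation, elementary properties of `K0`

`rot` is linear, `rot^[4] z = -z`, `rot^[8] z = z`.  `C0` for `t = 1/2` is `z.1 ≤ 1`, for
`t = √2/2` it is `(√2/2) (z.1 + z.2) ≤ 1`.  `K0` is an intersection of closed half planes.
Near `0`: `uc / t + 2 √2 t vc ≥ 2` holds when `uc, vc ≥ 9/10`
(`(9/10) (1/t + 2√2 t) ≥ (9/10) 2 √(2√2) > 2`). -/

set_option autoImplicit false

namespace Pool.H61.Sm

open Set

theorem rot_add (x y : ℝ × ℝ) : rot (x + y) = rot x + rot y := by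
  unfold rot
  ext
  · simp only [Prod.fst_add, Prod.snd_add]
    ring
  · simp only [Prod.fst_add, Prod.snd_add]
    ring

theorem rot_smul (c : ℝ) (x : ℝ × ℝ) : rot (c • x) = c • rot x := by
  unfold rot
  ext
  · simp only [Prod.smul_fst, Prod.smul_snd, smul_eq_mul]
    ring
  · simp only [Prod.smul_fst, Prod.smul_snd, smul_eq_mul]
    ring

private lemma M1_two (z : ℝ × ℝ) : rot (rot z) = (-z.2, z.1) := by
  have h := r2_sq
  unfold rot
  ext
  · simp only
    linear_combination (-z.2 / 2) * h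
  · simp only
    linear_combination (z.1 / 2) * h

theorem rot_four (z : ℝ × ℝ) : rot^[4] z = -z := by
  change rot (rot (rot (rot z))) = -z
  rw [M1_two, M1_two]
  rfl

theorem rot_eight (z : ℝ × ℝ) : rot^[8] z = z := by
  rw [show 8 = 4 + 4 from rfl, Function.iterate_add_apply, rot_four, rot_four, neg_neg]

theorem continuous_rot : Continuous rot := by
  unfold rot
  fun_prop

theorem dt2_rot (x y : ℝ × ℝ) : dt2 (rot x) (rot y) = dt2 x y := by
  have h := r2_sq
  unfold dt2 rot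
  simp only
  linear_combination ((x.1 * y.2 - x.2 * y.1) / 2) * h

theorem C0_side0 {z : ℝ × ℝ} (h : C0 z) : z.1 ≤ 1 := by
  have h1 := h (1 / 2) le_rfl (by have := r2_gt; linarith)
  have hr := r2_pos
  unfold uc vc at h1
  have h2 : (1 - r2 / 2 * (z.1 - z.2)) / (1 / 2) + 2 * r2 * (1 / 2) * (1 - z.2) =
      2 + r2 * (1 - z.1) := by ring
  rw [h2] at h1
  have h3 : 0 ≤ r2 * (1 - z.1) := by linarith
  have h4 := nonneg_of_mul_nonneg_right h3 hr
  linarith

theorem C0_side1 {z : ℝ × ℝ} (h : C0 z) : r2 / 2 * (z.1 + z.2) ≤ 1 := by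
  have h1 := h (r2 / 2) (by have := r2_gt; linarith) le_rfl
  have hr := r2_pos
  have hs := r2_sq
  unfold uc vc at h1
  have h2 : (1 - r2 / 2 * (z.1 - z.2)) / (r2 / 2) = r2 - (z.1 - z.2) := by
    rw [div_eq_iff (by positivity)]
    linear_combination (-1 / 2) * hs
  rw [h2] at h1
  have h3 : 2 * r2 * (r2 / 2) * (1 - z.2) = 2 * (1 - z.2) := by
    linear_combination (1 - z.2) * hs
  rw [h3] at h1
  have h4 : z.1 + z.2 ≤ r2 := by linarith
  have h5 : r2 / 2 * (z.1 + z.2) ≤ r2 / 2 * r2 := mul_le_mul_of_nonneg_left h4 (by positivity)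
  have h6 : r2 / 2 * r2 = 1 := by linear_combination (1 / 2) * hs
  linarith

theorem K0_rot (z : ℝ × ℝ) : rot z ∈ K0 ↔ z ∈ K0 := by
  constructor
  · intro h k
    have h1 := h (k + 7)
    rw [← Function.iterate_succ_apply, show (k + 7).succ = k + 8 from rfl,
      Function.iterate_add_apply, rot_eight] at h1
    exact h1
  · intro h k
    have h1 := h (k + 1)
    rw [Function.iterate_succ_apply] at h1
    exact h1

private lemma M1_iter (k : ℕ) (z : ℝ × ℝ) : rot^[k] z ∈ K0 ↔ z ∈ K0 := by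
  induction k generalizing z with
  | zero => rfl
  | succ k ih => rw [Function.iterate_succ_apply, ih, K0_rot]

theorem K0_neg {z : ℝ × ℝ} (h : z ∈ K0) : -z ∈ K0 := by
  rw [← rot_four, M1_iter]
  exact h

private lemma M1_lin (k : ℕ) (a b : ℝ) (z w : ℝ × ℝ) :
    rot^[k] (a • z + b • w) = a • rot^[k] z + b • rot^[k] w := by
  induction k generalizing z w with
  | zero => rfl
  | succ k ih =>
    rw [Function.iterate_succ_apply, rot_add, rot_smul, rot_smul, ih,
      ← Function.iterate_succ_apply, ← Function.iterate_succ_apply]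

private lemma M1_uc (a b : ℝ) (hab : a + b = 1) (z w : ℝ × ℝ) :
    uc (a • z + b • w) = a * uc z + b * uc w := by
  unfold uc
  simp only [Prod.fst_add, Prod.snd_add, Prod.smul_fst, Prod.smul_snd, smul_eq_mul]
  linear_combination -hab

private lemma M1_vc (a b : ℝ) (hab : a + b = 1) (z w : ℝ × ℝ) :
    vc (a • z + b • w) = a * vc z + b * vc w := by
  unfold vc
  simp only [Prod.snd_add, Prod.smul_snd, smul_eq_mul]
  linear_combination -hab

private lemma M1_C0 {a b : ℝ} (ha : 0 ≤ a) (hb : 0 ≤ b) (hab : a + b = 1) {z w : ℝ × ℝ}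
    (hz : C0 z) (hw : C0 w) : C0 (a • z + b • w) := by
  intro t h1 h2
  have h3 := mul_le_mul_of_nonneg_left (hz t h1 h2) ha
  have h4 := mul_le_mul_of_nonneg_left (hw t h1 h2) hb
  rw [M1_uc a b hab, M1_vc a b hab]
  have h5 : (a * uc z + b * uc w) / t + 2 * r2 * t * (a * vc z + b * vc w) =
      a * (uc z / t + 2 * r2 * t * vc z) + b * (uc w / t + 2 * r2 * t * vc w) := by ring
  rw [h5]
  calc (2 : ℝ) = a * 2 + b * 2 := by rw [← add_mul, hab, one_mul]
    _ ≤ _ := add_le_add h3 h4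

theorem K0_convex : Convex ℝ K0 := by
  intro z hz w hw a b ha hb hab k
  rw [M1_lin]
  exact M1_C0 ha hb hab (hz k) (hw k)

theorem K0_bound {z : ℝ × ℝ} (h : z ∈ K0) : |z.1| ≤ 1 ∧ |z.2| ≤ 1 := by
  have h1 : z.1 ≤ 1 := C0_side0 (h 0)
  have h2 : (-z).1 ≤ 1 := C0_side0 (K0_neg h 0)
  have h3 : (rot (rot z)).1 ≤ 1 := C0_side0 (h 2)
  have h4 : (rot (rot (-z))).1 ≤ 1 := C0_side0 (K0_neg h 2)
  rw [M1_two] at h3 h4
  simp only [Prod.fst_neg, Prod.snd_neg, neg_neg] at h2 h3 h4
  rw [abs_le, abs_le]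
  refine ⟨⟨by linarith, h1⟩, ⟨by linarith, h4⟩⟩

private lemma M1_cont (k : ℕ) : Continuous rot^[k] := continuous_rot.iterate k

private lemma M1_cuc : Continuous uc := by
  unfold uc
  fun_prop

private lemma M1_cvc : Continuous vc := by
  unfold vc
  fun_prop

theorem K0_closed : IsClosed K0 := by
  have h : K0 = ⋂ (k : ℕ) (t : ℝ) (_ : 1 / 2 ≤ t) (_ : t ≤ r2 / 2),
      {z | 2 ≤ uc (rot^[k] z) / t + 2 * r2 * t * vc (rot^[k] z)} := by
    ext z
    simp only [mem_iInter]
    rfl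
  rw [h]
  refine isClosed_iInter fun k => isClosed_iInter fun t => isClosed_iInter fun _ =>
    isClosed_iInter fun _ => ?_
  apply isClosed_le continuous_const
  exact ((M1_cuc.comp (M1_cont k)).div_const t).add
    (continuous_const.mul (M1_cvc.comp (M1_cont k)))

theorem K0_compact : IsCompact K0 := by
  apply (isCompact_Icc (a := ((-1, -1) : ℝ × ℝ)) (b := (1, 1))).of_isClosed_subset K0_closed
  intro z hz
  obtain ⟨h1, h2⟩ := K0_bound hz
  rw [abs_le] at h1 h2
  exact ⟨⟨h1.1, h2.1⟩, ⟨h1.2, h2.2⟩⟩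

private lemma M1_zero (k : ℕ) : rot^[k] (0 : ℝ × ℝ) = 0 := by
  induction k with
  | zero => rfl
  | succ k ih =>
    rw [Function.iterate_succ_apply]
    have : rot 0 = 0 := by
      have := rot_smul 0 0
      rwa [zero_smul, zero_smul] at this
    rw [this, ih]

theorem K0_nhds : K0 ∈ nhds (0 : ℝ × ℝ) := by
  have h1 : ∀ k : ℕ, ∀ᶠ z in nhds (0 : ℝ × ℝ),
      9 / 10 < uc (rot^[k] z) ∧ 9 / 10 < vc (rot^[k] z) := by
    intro k
    have a1 : uc (rot^[k] 0) = 1 := by rw [M1_zero]; simp [uc]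
    have a2 : vc (rot^[k] 0) = 1 := by rw [M1_zero]; simp [vc]
    apply Filter.Eventually.and
    · exact (M1_cuc.comp (M1_cont k)).continuousAt.eventually
        (lt_mem_nhds (by simp only [Function.comp]; rw [a1]; norm_num))
    · exact (M1_cvc.comp (M1_cont k)).continuousAt.eventually
        (lt_mem_nhds (by simp only [Function.comp]; rw [a2]; norm_num))
  have h2 : ∀ᶠ z in nhds (0 : ℝ × ℝ), ∀ k ∈ Finset.range 8,
      9 / 10 < uc (rot^[k] z) ∧ 9 / 10 < vc (rot^[k] z) :=
    (Filter.eventually_all_finset _).2 fun k _ => h1 k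
  filter_upwards [h2] with z hz
  intro k t ht1 ht2
  have hk : rot^[k] z = rot^[k % 8] z := by
    conv_lhs => rw [← Nat.mod_add_div k 8, Function.iterate_add_apply]
    have : rot^[8 * (k / 8)] z = z := by
      rw [Function.iterate_mul]
      have : rot^[8] = id := funext rot_eight
      rw [this, Function.iterate_id]
      rfl
    rw [this]
  obtain ⟨h3, h4⟩ := hz (k % 8) (Finset.mem_range.2 (Nat.mod_lt _ (by norm_num)))
  rw [hk]
  have hr := r2_gt
  have hs := r2_sq
  have ht0 : 0 < t := by linarith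
  have h5 : r2 ≤ 1 / t := by
    rw [le_div_iff₀ ht0]
    nlinarith
  have h6 : 9 / 10 * r2 ≤ uc (rot^[k % 8] z) / t := by
    calc 9 / 10 * r2 ≤ 9 / 10 * (1 / t) := by linarith
      _ = (9 / 10) / t := by ring
      _ ≤ uc (rot^[k % 8] z) / t := by gcongr
  have h7 : r2 * (9 / 10) ≤ 2 * r2 * t * vc (rot^[k % 8] z) := by
    have : r2 ≤ 2 * r2 * t := by nlinarith
    calc r2 * (9 / 10) ≤ (2 * r2 * t) * (9 / 10) := by linarith
      _ ≤ 2 * r2 * t * vc (rot^[k % 8] z) := by
        apply mul_le_mul_of_nonneg_left h4.le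
        positivity
  linarith

end Pool.H61.Sm
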