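import Pool.Agent.H61.Sm.M1

/-! # M2: the sector

`C0_out1`: `uc ≥ 1 - √2/2 + (√2/2) z.2` (from `z.1 ≤ 1`), `vc = 1 - z.2`;
`g = uc/t + 2√2 t vc - 2 ≥ (1 - √2/2)/t + 2√2 t - 2 + z.2 ((√2/2)/t - 2√2 t)`; the bracket is `≤ 0`
for `t ≥ 1/2`, the rest is `≥ 0` for `t ≥ 1/2` (zero at `t = 1/2`).
`C0_out2`: mirror image (the reflection `(x, y) ↦ ((√2/2) (x + y), (√2/2) (x - y))` exchanges
`uc` and `vc` and `t ↔ √2/(4t)`).
`mem_of_cone`: the rotations number `1, ..., 7` of a point of the sector satisfy `C0` by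
`C0_out1`, `C0_out2`.
`C0_iff`: (→) take `t = 1/2`, `t = u`, `t = √2/2`; (←) AM-GM for `u ∈ [1/2, √2/2]`; for `u ≤ 1/2`,
`u/t + 4 (1 - u) t ≥ 2` for `t ≥ 1/2`, and similarly for `u ≥ √2/2`
(in the sector `uc ≤ 1` and `vc ≤ 1`). -/

set_option autoImplicit false

namespace Pool.H61.Sm

open Set

private theorem M2_mul {z : ℝ × ℝ} :
    C0 z ↔ ∀ t : ℝ, 1 / 2 ≤ t → t ≤ r2 / 2 → 2 * t ≤ uc z + 2 * r2 * t ^ 2 * vc z := by
  unfold C0
  refine forall_congr' (fun t => forall_congr' (fun h1 => forall_congr' (fun _ => ?_)))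
  have ht : 0 < t := by linarith
  have h : uc z + 2 * r2 * t ^ 2 * vc z = (uc z / t + 2 * r2 * t * vc z) * t := by
    field_simp
  rw [h, mul_le_mul_iff_left₀ ht]

theorem C0_out1 {z : ℝ × ℝ} (h1 : z.1 ≤ 1) (h2 : z.2 ≤ 0) : C0 z := by
  rw [M2_mul]
  intro t ht1 ht2
  unfold uc vc
  have hr := r2_gt
  have hr2 := r2_mul
  have e1 : 0 ≤ (t - 1 / 2) * (2 * r2 * t + r2 - 2) := by
    apply mul_nonneg (by linarith)
    nlinarith
  have e2 : 0 ≤ r2 / 2 * (1 - z.1) := mul_nonneg (by linarith) (by linarith)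
  have e3 : 0 ≤ (-z.2) * (2 * r2 * (t - 1 / 2) * (t + 1 / 2)) := by
    apply mul_nonneg (by linarith)
    apply mul_nonneg
    · apply mul_nonneg (by linarith) (by linarith)
    · linarith
  nlinarith

theorem C0_out2 {z : ℝ × ℝ} (h1 : r2 / 2 * (z.1 + z.2) ≤ 1) (h2 : z.1 ≤ z.2) : C0 z := by
  rw [M2_mul]
  intro t ht1 ht2
  unfold uc vc
  have hr := r2_gt
  have hr' := r2_lt
  have hr2 := r2_mul
  have e1 : 0 ≤ (r2 / 2 - t) * (r2 - (2 * r2 - 2) * t) := by
    apply mul_nonneg (by linarith)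
    have : (2 * r2 - 2) * t ≤ (2 * r2 - 2) * (r2 / 2) :=
      mul_le_mul_of_nonneg_left ht2 (by linarith)
    nlinarith
  have e2 : 0 ≤ 2 * t ^ 2 * (1 - r2 / 2 * (z.1 + z.2)) := by
    apply mul_nonneg (by positivity) (by linarith)
  have e3 : 0 ≤ (r2 / 2 * (z.2 - z.1)) * (1 - 2 * t ^ 2) := by
    apply mul_nonneg (mul_nonneg (by linarith) (by linarith))
    nlinarith
  have e4 : 1 - r2 / 2 * (z.1 - z.2) + 2 * r2 * t ^ 2 * (1 - z.2) - 2 * t =
      (r2 / 2 - t) * (r2 - (2 * r2 - 2) * t) + 2 * t ^ 2 * (1 - r2 / 2 * (z.1 + z.2)) +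
        (r2 / 2 * (z.2 - z.1)) * (1 - 2 * t ^ 2) +
        (r2 * r2 - 2) * (t - 1 / 2) := by ring
  rw [hr2, sub_self, zero_mul, add_zero] at e4
  linarith

private theorem M2_rot2 (z : ℝ × ℝ) : rot^[2] z = (-z.2, z.1) := by
  have hr2 := r2_mul
  rw [Function.iterate_succ_apply, Function.iterate_one]
  unfold rot
  ext
  · simp only
    linear_combination (-z.2 / 2) * hr2
  · simp only
    linear_combination (z.1 / 2) * hr2

private theorem M2_rot3 (z : ℝ × ℝ) : rot^[3] z = (r2 / 2 * (-z.2 - z.1), r2 / 2 * (-z.2 + z.1)) := by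
  rw [Function.iterate_succ_apply', M2_rot2]
  rfl

private theorem M2_rot5 (z : ℝ × ℝ) : rot^[5] z = -rot z := by
  rw [Function.iterate_succ_apply, rot_four]

private theorem M2_rot6 (z : ℝ × ℝ) : rot^[6] z = (z.2, -z.1) := by
  rw [show 6 = 4 + 2 from rfl, Function.iterate_add_apply, M2_rot2, rot_four]
  ext <;> simp

private theorem M2_rot7 (z : ℝ × ℝ) :
    rot^[7] z = (r2 / 2 * (z.1 + z.2), r2 / 2 * (z.2 - z.1)) := by
  rw [show 7 = 4 + 3 from rfl, Function.iterate_add_apply, M2_rot3, rot_four]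
  ext
  · simp only [Prod.fst_neg]
    ring
  · simp only [Prod.snd_neg]
    ring

private theorem M2_cover (P : ℕ → Prop) (h : ∀ k < 8, P k)
    (hP : ∀ k, P k → P (k + 8)) : ∀ k, P k := by
  intro k
  induction k using Nat.strong_induction_on with
  | _ k ih =>
    by_cases hk : k < 8
    · exact h k hk
    · have h1 := hP (k - 8) (ih (k - 8) (by omega))
      rwa [Nat.sub_add_cancel (by omega)] at h1

theorem mem_of_cone {z : ℝ × ℝ} (hz : Cone z) (h : C0 z) : z ∈ K0 := by
  have hr := r2_gt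
  have hr' := r2_lt
  have hr2 := r2_mul
  have s0 := C0_side0 h
  have s1 := C0_side1 h
  obtain ⟨hy, hxy⟩ := hz
  change ∀ k : ℕ, C0 (rot^[k] z)
  refine M2_cover _ ?_ ?_
  · intro k hk
    interval_cases k
    · exact h
    · apply C0_out2
      · change r2 / 2 * (r2 / 2 * (z.1 - z.2) + r2 / 2 * (z.1 + z.2)) ≤ 1
        nlinarith
      · change r2 / 2 * (z.1 - z.2) ≤ r2 / 2 * (z.1 + z.2)
        nlinarith
    · rw [M2_rot2]
      apply C0_out2
      · change r2 / 2 * (-z.2 + z.1) ≤ 1
        nlinarith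
      · change -z.2 ≤ z.1
        linarith
    · rw [M2_rot3]
      apply C0_out2
      · change r2 / 2 * (r2 / 2 * (-z.2 - z.1) + r2 / 2 * (-z.2 + z.1)) ≤ 1
        nlinarith
      · change r2 / 2 * (-z.2 - z.1) ≤ r2 / 2 * (-z.2 + z.1)
        nlinarith
    · rw [rot_four]
      apply C0_out1
      · change -z.1 ≤ 1
        linarith
      · change -z.2 ≤ 0
        linarith
    · rw [M2_rot5]
      apply C0_out1
      · change -(r2 / 2 * (z.1 - z.2)) ≤ 1
        nlinarith
      · change -(r2 / 2 * (z.1 + z.2)) ≤ 0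
        nlinarith
    · rw [M2_rot6]
      apply C0_out1
      · change z.2 ≤ 1
        linarith
      · change -z.1 ≤ 0
        linarith
    · rw [M2_rot7]
      apply C0_out1
      · exact s1
      · change r2 / 2 * (z.2 - z.1) ≤ 0
        nlinarith
  · intro k hk
    rw [Function.iterate_add_apply, rot_eight]
    exact hk

theorem C0_iff {z : ℝ × ℝ} (hz : Cone z) : C0 z ↔ hf (uc z) ≤ vc z := by
  have hr := r2_gt
  have hr' := r2_lt
  have hr2 := r2_mul
  rw [M2_mul]
  generalize uc z = u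
  generalize vc z = v
  unfold hf
  constructor
  · intro h
    split_ifs with h1 h2
    · have := h (1 / 2) le_rfl (by linarith)
      nlinarith
    · push Not at h1
      have h3 := h u h1.le h2
      have hu : 0 < u := by linarith
      rw [div_le_iff₀ hu]
      have h4 : u * (2 * r2 * u * v) ≥ u * 1 := by nlinarith
      have h5 : 1 ≤ 2 * r2 * u * v := le_of_mul_le_mul_left h4 hu
      nlinarith
    · have h3 := h (r2 / 2) (by linarith) le_rfl
      have e1 : 2 * r2 * (r2 / 2) ^ 2 * v = (r2 * r2) * (r2 * v / 2) := by ring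
      rw [e1, hr2] at h3
      have e2 : r2 / 2 * (2 * (r2 / 2)) ≤ r2 / 2 * (u + 2 * (r2 * v / 2)) :=
        mul_le_mul_of_nonneg_left h3 (by linarith)
      have e3 : r2 / 2 * (2 * (r2 / 2)) = (r2 * r2) / 2 := by ring
      have e4 : r2 / 2 * (u + 2 * (r2 * v / 2)) = r2 / 2 * u + (r2 * r2) * v / 2 := by ring
      rw [e3, e4, hr2] at e2
      linarith
  · intro h t ht1 ht2
    have ht : 0 < t := by linarith
    split_ifs at h with h1 h2
    · have e1 : 2 * r2 * t ^ 2 * (r2 * (1 - u)) ≤ 2 * r2 * t ^ 2 * v :=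
        mul_le_mul_of_nonneg_left h (by positivity)
      have e2 : 0 ≤ (t - 1 / 2) * (4 * (1 - u) * t - 2 * u) := by
        apply mul_nonneg (by linarith)
        nlinarith
      have e3 : 2 * r2 * t ^ 2 * (r2 * (1 - u)) = (r2 * r2) * (2 * t ^ 2 * (1 - u)) := by ring
      rw [hr2] at e3
      nlinarith
    · push Not at h1
      have hu : 0 < u := by linarith
      rw [div_le_iff₀ hu] at h
      have e1 : 0 ≤ (u - t) ^ 2 := sq_nonneg _
      have e2 : 2 * r2 * t ^ 2 * (r2 / 4) ≤ 2 * r2 * t ^ 2 * (v * u) :=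
        mul_le_mul_of_nonneg_left h (by positivity)
      have e3 : 2 * r2 * t ^ 2 * (r2 / 4) = (r2 * r2) * (t ^ 2 / 2) := by ring
      rw [hr2] at e3
      have e4 : u * (2 * t) ≤ u * (u + 2 * r2 * t ^ 2 * v) := by nlinarith
      exact le_of_mul_le_mul_left e4 hu
    · push Not at h1 h2
      have e1 : 2 * r2 * t ^ 2 * (1 - r2 / 2 * u) ≤ 2 * r2 * t ^ 2 * v :=
        mul_le_mul_of_nonneg_left h (by positivity)
      have e3 : 2 * r2 * t ^ 2 * (1 - r2 / 2 * u) = 2 * r2 * t ^ 2 - (r2 * r2) * (t ^ 2 * u) := by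
        ring
      rw [hr2] at e3
      have e4 : 0 ≤ (u - r2 / 2) * (1 - 2 * t ^ 2) := by
        apply mul_nonneg (by linarith)
        nlinarith
      have e5 : 0 ≤ r2 * (t - r2 / 2) ^ 2 := by positivity
      have e6 : r2 * (t - r2 / 2) ^ 2 = r2 * t ^ 2 - (r2 * r2) * t + r2 * (r2 * r2) / 4 := by ring
      rw [hr2] at e6
      nlinarith

private theorem M2_hf (u : ℝ) :
    hf u = (2 - u / (max (1 / 2) (min u (r2 / 2)))) /
      (2 * r2 * (max (1 / 2) (min u (r2 / 2)))) := by
  have hr := r2_gt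
  have hr2 := r2_mul
  have hr0 := r2_pos.ne'
  unfold hf
  split_ifs with h1 h2
  · rw [min_eq_left (by linarith), max_eq_left h1]
    field_simp
    nlinarith
  · push Not at h1
    have hu : u ≠ 0 := by
      intro h
      linarith
    rw [min_eq_left h2, max_eq_right h1.le]
    field_simp
    nlinarith
  · push Not at h1 h2
    rw [min_eq_right h2.le, max_eq_right (by linarith)]
    have e1 : u / (r2 / 2) = r2 * u := by
      rw [div_eq_iff (by linarith)]
      linear_combination (-u / 2) * hr2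
    have e2 : 2 * r2 * (r2 / 2) = 2 := by linarith
    rw [e1, e2]
    ring

theorem hf_continuous : ContinuousOn hf (Ioi 0) := by
  have hr0 := r2_pos
  have h1 : Continuous (fun u : ℝ => max (1 / 2) (min u (r2 / 2))) :=
    continuous_const.max (continuous_id.min continuous_const)
  have h0 : ∀ u : ℝ, 0 < max (1 / 2) (min u (r2 / 2)) := fun u =>
    lt_of_lt_of_le (by norm_num) (le_max_left _ _)
  have h2 : Continuous hf := by
    rw [show hf = fun u => (2 - u / (max (1 / 2) (min u (r2 / 2)))) /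
      (2 * r2 * (max (1 / 2) (min u (r2 / 2)))) from funext M2_hf]
    refine Continuous.div ?_ (continuous_const.mul h1) (fun u => ?_)
    · exact continuous_const.sub (continuous_id.div h1 (fun u => (h0 u).ne'))
    · have := h0 u
      positivity
  exact h2.continuousOn

theorem exists_rot_cone (z : ℝ × ℝ) : ∃ k < 8, Cone (rot^[k] z) := by
  have hr := r2_pos
  obtain ⟨x, y⟩ := z
  rcases le_total 0 y with hy | hy
  · rcases le_total y x with h | h
    · exact ⟨0, by norm_num, hy, h⟩
    · rcases le_total 0 x with h' | h'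
      · refine ⟨7, by norm_num, ?_⟩
        rw [M2_rot7]
        exact ⟨mul_nonneg (by linarith) (by simp only; linarith),
          mul_le_mul_of_nonneg_left (by simp only; linarith) (by linarith)⟩
      · rcases le_total 0 (x + y) with h'' | h''
        · refine ⟨6, by norm_num, ?_⟩
          rw [M2_rot6]
          exact ⟨by simp only; linarith, by simp only; linarith⟩
        · refine ⟨5, by norm_num, ?_⟩
          rw [M2_rot5]
          refine ⟨?_, ?_⟩
          · change 0 ≤ -(r2 / 2 * (x + y))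
            nlinarith
          · change -(r2 / 2 * (x + y)) ≤ -(r2 / 2 * (x - y))
            nlinarith
  · rcases le_total 0 (x + y) with h | h
    · refine ⟨1, by norm_num, ?_⟩
      refine ⟨?_, ?_⟩
      · change 0 ≤ r2 / 2 * (x + y)
        exact mul_nonneg (by linarith) h
      · change r2 / 2 * (x + y) ≤ r2 / 2 * (x - y)
        exact mul_le_mul_of_nonneg_left (by linarith) (by linarith)
    · rcases le_total 0 x with h' | h'
      · refine ⟨2, by norm_num, ?_⟩
        rw [M2_rot2]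
        exact ⟨h', by simp only; linarith⟩
      · rcases le_total y x with h'' | h''
        · refine ⟨3, by norm_num, ?_⟩
          rw [M2_rot3]
          exact ⟨mul_nonneg (by linarith) (by simp only; linarith),
            mul_le_mul_of_nonneg_left (by simp only; linarith) (by linarith)⟩
        · refine ⟨4, by norm_num, ?_⟩
          rw [rot_four]
          exact ⟨by simp only [Prod.snd_neg]; linarith, by
            simp only [Prod.snd_neg, Prod.fst_neg]; linarith⟩

end Pool.H61.Sm
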