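import Pool.Agent.H61.Sm.M2

/-! # M3: inscribed hexagons

Let `1/2 ≤ u ≤ √2/2`, `u v = √2/4`, `P = (√2 (1 - u) + 1 - v, 1 - v)` (point of the arc),
`Q = (1 - √2 u, 1)` (point of side 2, `0 ≤ Q.1`... `Q.1 ∈ [0, 1 - √2/2]`), `Q - P = (v - √2, v)`
(point of side 3).  `dt2 P Q = √2 - 1/2`.  All three are in `K0` (use `mem_of_cone` after a
rotation: `rot^[6]`-image of `Q` is in the sector reflected...; more simply: `Q = rot^[2] (1, -Q.1)`,
and `(1, -s) = rot^[7] (a point of the sector)`; any point `(1, s)` with `|s| ≤ 1 - √2/2` is in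
`K0`, `side_mem`; the sides number `k` are the rotations of it).
Cases for a boundary point `z` of the sector (`vc z = hf (uc z)`):
* `uc z ≤ 1/2`: `z = (1, y)`, `0 ≤ y ≤ 1 - √2/2`; with `v = (√2/2) (1 - y)`, `u = √2/(4v)` take
  `q = rot P`, `q - z = rot Q`;
* `1/2 ≤ uc z ≤ √2/2`: `z = P`, `q = Q`;
* `uc z ≥ √2/2`: `(√2/2) (z.1 + z.2) = 1`, `rot z = (s, 1)` with `0 ≤ s ≤ 1 - √2/2`,
  with `u = (1 - s)/√2`, `v = √2/(4u)`: `rot z = Q`, take `q` with `rot q = Q - P`,
  i.e. `q = rot^[7] (Q - P)`, `q - z = rot^[7] (-P)`. -/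

set_option autoImplicit false

namespace Pool.H61.Sm

open Set

theorem M3_cone_mem {z : ℝ × ℝ} (hz : Cone z) (h : hf (uc z) ≤ vc z) : z ∈ K0 :=
  mem_of_cone hz ((C0_iff hz).2 h)

theorem side_mem {s : ℝ} (h : |s| ≤ 1 - r2 / 2) : ((1 : ℝ), s) ∈ K0 := by
  have e := r2_mul
  have hp := r2_pos
  have hg := r2_gt
  have hl := r2_lt
  rw [abs_le] at h
  obtain ⟨h1, h2⟩ := h
  rcases le_or_gt 0 s with hs | hs
  · refine M3_cone_mem ⟨hs, ?_⟩ ?_
    · show s ≤ 1
      linarith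
    · have hu : uc ((1 : ℝ), s) = 1 - r2 / 2 * (1 - s) := rfl
      have hv : vc ((1 : ℝ), s) = 1 - s := rfl
      have h3 : uc ((1 : ℝ), s) ≤ 1 / 2 := by
        rw [hu]
        nlinarith
      unfold hf
      rw [if_pos h3, hu, hv]
      have : r2 * (1 - (1 - r2 / 2 * (1 - s))) = 1 - s := by linear_combination (1 - s) / 2 * e
      rw [this]
  · rw [← K0_rot]
    have hr : rot ((1 : ℝ), s) = (r2 / 2 * (1 - s), r2 / 2 * (1 + s)) := rfl
    rw [hr]
    refine M3_cone_mem ⟨?_, ?_⟩ ?_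
    · show 0 ≤ r2 / 2 * (1 + s)
      have : 0 ≤ 1 + s := by linarith
      positivity
    · show r2 / 2 * (1 + s) ≤ r2 / 2 * (1 - s)
      nlinarith
    · have hu : uc (r2 / 2 * (1 - s), r2 / 2 * (1 + s)) = 1 + s := by
        show 1 - r2 / 2 * (r2 / 2 * (1 - s) - r2 / 2 * (1 + s)) = 1 + s
        linear_combination s / 2 * e
      have hv : vc (r2 / 2 * (1 - s), r2 / 2 * (1 + s)) = 1 - r2 / 2 * (1 + s) := rfl
      unfold hf
      rw [hu, hv, if_neg (by linarith)]
      rcases le_or_gt (1 + s) (r2 / 2) with h3 | h3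
      · have h4 : 1 + s = r2 / 2 := by linarith
        rw [if_pos h3, h4]
        have h5 : r2 / 4 / (r2 / 2) = 1 / 2 := by
          field_simp
          norm_num
        rw [h5]
        nlinarith
      · rw [if_neg (not_le.2 h3)]

theorem arc_mem {u v : ℝ} (h1 : 1 / 2 ≤ u) (h2 : u ≤ r2 / 2) (h3 : u * v = r2 / 4) :
    (r2 * (1 - u) + 1 - v, 1 - v) ∈ K0 := by
  have e := r2_mul
  have hp := r2_pos
  have hg := r2_gt
  have hl := r2_lt
  have hu0 : 0 < u := by linarith
  have hv : v = r2 / 4 / u := by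
    field_simp
    linarith
  have hv1 : v ≤ r2 / 2 := by
    rw [hv, div_le_iff₀ hu0]
    nlinarith
  refine M3_cone_mem ⟨?_, ?_⟩ ?_
  · show 0 ≤ 1 - v
    linarith
  · show 1 - v ≤ r2 * (1 - u) + 1 - v
    have : 0 ≤ r2 * (1 - u) := mul_nonneg hp.le (by linarith)
    linarith
  · have huc : uc (r2 * (1 - u) + 1 - v, 1 - v) = u := by
      show 1 - r2 / 2 * (r2 * (1 - u) + 1 - v - (1 - v)) = u
      linear_combination -(1 - u) / 2 * e
    have hvc : vc (r2 * (1 - u) + 1 - v, 1 - v) = v := by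
      show 1 - (1 - v) = v
      ring
    unfold hf
    rw [huc, hvc]
    rcases le_or_gt u (1 / 2) with h4 | h4
    · have h5 : u = 1 / 2 := le_antisymm h4 h1
      rw [if_pos h4]
      rw [h5] at h3 ⊢
      linarith
    · rw [if_neg (not_le.2 h4), if_pos h2, hv]

/-- the point of side 3. -/
theorem M3_side3 {v : ℝ} (h1 : 1 / 2 ≤ v) (h2 : v ≤ r2 / 2) : (v - r2, v) ∈ K0 := by
  have e := r2_mul
  have hp := r2_pos
  have h : ((1 : ℝ), 1 - r2 * v) ∈ K0 := by
    refine side_mem ?_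
    rw [abs_le]
    have hg := r2_gt
    have hl := r2_lt
    constructor <;> nlinarith
  rw [← K0_rot, ← K0_rot, ← K0_rot] at h
  have h3 : rot (rot (rot ((1 : ℝ), 1 - r2 * v))) = (v - r2, v) := by
    have e1 : rot (rot ((1 : ℝ), 1 - r2 * v)) = (r2 * v - 1, 1) := by
      refine Prod.ext ?_ ?_
      · show r2 / 2 * (r2 / 2 * (1 - (1 - r2 * v)) - r2 / 2 * (1 + (1 - r2 * v))) = r2 * v - 1
        linear_combination (r2 * v - 1) / 2 * e
      · show r2 / 2 * (r2 / 2 * (1 - (1 - r2 * v)) + r2 / 2 * (1 + (1 - r2 * v))) = 1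
        linear_combination 1 / 2 * e
    rw [e1]
    refine Prod.ext ?_ ?_
    · show r2 / 2 * (r2 * v - 1 - 1) = v - r2
      linear_combination v / 2 * e
    · show r2 / 2 * (r2 * v - 1 + 1) = v
      linear_combination v / 2 * e
  rwa [h3] at h

/-- the point of side 2. -/
theorem M3_side2 {u : ℝ} (h1 : 1 / 2 ≤ u) (h2 : u ≤ r2 / 2) : (1 - r2 * u, (1 : ℝ)) ∈ K0 := by
  have e := r2_mul
  have hp := r2_pos
  have h : ((1 : ℝ), r2 * u - 1) ∈ K0 := by
    refine side_mem ?_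
    rw [abs_le]
    have hg := r2_gt
    have hl := r2_lt
    constructor <;> nlinarith
  rw [← K0_rot, ← K0_rot] at h
  have e1 : rot (rot ((1 : ℝ), r2 * u - 1)) = (1 - r2 * u, 1) := by
    refine Prod.ext ?_ ?_
    · show r2 / 2 * (r2 / 2 * (1 - (r2 * u - 1)) - r2 / 2 * (1 + (r2 * u - 1))) = 1 - r2 * u
      linear_combination (1 - r2 * u) / 2 * e
    · show r2 / 2 * (r2 / 2 * (1 - (r2 * u - 1)) + r2 / 2 * (1 + (r2 * u - 1))) = 1
      linear_combination 1 / 2 * e
  rwa [e1] at h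

/-- the range of the second coordinate. -/
theorem M3_uv {u : ℝ} (h1 : 1 / 2 ≤ u) (h2 : u ≤ r2 / 2) :
    1 / 2 ≤ r2 / 4 / u ∧ r2 / 4 / u ≤ r2 / 2 ∧ u * (r2 / 4 / u) = r2 / 4 := by
  have hu0 : 0 < u := by linarith
  refine ⟨?_, ?_, ?_⟩
  · rw [le_div_iff₀ hu0]
    linarith
  · rw [div_le_iff₀ hu0]
    nlinarith [r2_pos]
  · field_simp

theorem triple_cone {z : ℝ × ℝ} (hz : Cone z) (hm : z ∈ K0) (h : hf (uc z) = vc z) :
    ∃ q : ℝ × ℝ, q ∈ K0 ∧ q - z ∈ K0 ∧ dt2 z q = De := by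
  have e := r2_mul
  have hp := r2_pos
  have hg := r2_gt
  have hl := r2_lt
  obtain ⟨x, y⟩ := z
  obtain ⟨hy0, hxy⟩ := hz
  have hy0' : 0 ≤ y := hy0
  have hxy' : y ≤ x := hxy
  have huc : uc (x, y) = 1 - r2 / 2 * (x - y) := rfl
  have hvc : vc (x, y) = 1 - y := rfl
  rcases le_or_gt (uc (x, y)) (1 / 2) with c1 | c1
  · -- side 0
    unfold hf at h
    rw [if_pos c1, huc, hvc] at h
    have hx : x = 1 := by
      have : r2 * (1 - (1 - r2 / 2 * (x - y))) = x - y := by linear_combination (x - y) / 2 * e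
      rw [this] at h
      linarith
    subst hx
    rw [huc] at c1
    have c2 : r2 / 2 ≤ 1 - y := by nlinarith
    have hv1 : 1 / 2 ≤ r2 / 2 * (1 - y) := by linarith
    have hv2 : r2 / 2 * (1 - y) ≤ r2 / 2 := by nlinarith
    obtain ⟨u1, u2, u3⟩ := M3_uv hv1 hv2
    set v : ℝ := r2 / 2 * (1 - y) with hv
    set u : ℝ := r2 / 4 / v with hu
    have hrv : r2 * v = 1 - y := by
      rw [hv]
      linear_combination (1 - y) / 2 * e
    have hP : (r2 * (1 - u) + 1 - v, 1 - v) ∈ K0 := arc_mem u1 u2 (by rw [mul_comm]; exact u3)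
    have hQ : (1 - r2 * u, (1 : ℝ)) ∈ K0 := M3_side2 u1 u2
    refine ⟨(1 - u, 1 - u + r2 * (1 - v)), ?_, ?_, ?_⟩
    · rw [← K0_rot] at hP
      have e1 : rot (r2 * (1 - u) + 1 - v, 1 - v) = (1 - u, 1 - u + r2 * (1 - v)) := by
        refine Prod.ext ?_ ?_
        · show r2 / 2 * (r2 * (1 - u) + 1 - v - (1 - v)) = 1 - u
          linear_combination (1 - u) / 2 * e
        · show r2 / 2 * (r2 * (1 - u) + 1 - v + (1 - v)) = 1 - u + r2 * (1 - v)
          linear_combination (1 - u) / 2 * e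
      rwa [e1] at hP
    · rw [← K0_rot] at hQ
      have e1 : rot (1 - r2 * u, (1 : ℝ)) = (1 - u, 1 - u + r2 * (1 - v)) - ((1 : ℝ), y) := by
        refine Prod.ext ?_ ?_
        · show r2 / 2 * (1 - r2 * u - 1) = 1 - u - 1
          linear_combination -u / 2 * e
        · show r2 / 2 * (1 - r2 * u + 1) = 1 - u + r2 * (1 - v) - y
          linear_combination -u / 2 * e + hrv
      rwa [e1] at hQ
    · show 1 * (1 - u + r2 * (1 - v)) - y * (1 - u) = r2 - 1 / 2
      linear_combination -r2 * u3 - (1 - u) * hrv - 1 / 4 * e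
  · rcases le_or_gt (uc (x, y)) (r2 / 2) with c2 | c2
    · -- arc
      unfold hf at h
      rw [if_neg (not_le.2 c1), if_pos c2] at h
      obtain ⟨u1, u2, u3⟩ := M3_uv c1.le c2
      set u : ℝ := uc (x, y) with hu
      rw [h] at u1 u2 u3
      rw [hvc] at u1 u2 u3
      have hx : x - y = r2 * (1 - u) := by
        rw [huc]
        linear_combination -(x - y) / 2 * e
      refine ⟨(1 - r2 * u, 1), M3_side2 c1.le c2, ?_, ?_⟩
      · have e1 : (1 - r2 * u, (1 : ℝ)) - (x, y) = (1 - y - r2, 1 - y) := by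
          refine Prod.ext ?_ ?_
          · show 1 - r2 * u - x = 1 - y - r2
            linear_combination -hx
          · rfl
        rw [e1]
        exact M3_side3 u1 u2
      · show x * 1 - y * (1 - r2 * u) = r2 - 1 / 2
        linear_combination hx - r2 * u3 - 1 / 4 * e
    · -- side 1
      unfold hf at h
      rw [if_neg (not_le.2 c1), if_neg (not_le.2 c2), hvc, huc] at h
      have hxy2 : x + y = r2 := by
        have : r2 / 2 * (r2 / 2 * (x - y)) = (x - y) / 2 := by linear_combination (x - y) / 4 * e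
        linarith
      rw [huc] at c2
      have hy1 : 1 / 2 ≤ y := by nlinarith
      have hy2 : y ≤ r2 / 2 := by linarith
      obtain ⟨v1, v2, v3⟩ := M3_uv hy1 hy2
      set v : ℝ := r2 / 4 / y with hv
      have hP : (r2 * (1 - y) + 1 - v, 1 - v) ∈ K0 := arc_mem hy1 hy2 v3
      refine ⟨(r2 * v - 1, 1), ?_, ?_, ?_⟩
      · rw [← K0_rot]
        have e1 : rot (r2 * v - 1, (1 : ℝ)) = (v - r2, v) := by
          refine Prod.ext ?_ ?_
          · show r2 / 2 * (r2 * v - 1 - 1) = v - r2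
            linear_combination v / 2 * e
          · show r2 / 2 * (r2 * v - 1 + 1) = v
            linear_combination v / 2 * e
        rw [e1]
        exact M3_side3 v1 v2
      · rw [← K0_rot]
        have e1 : rot ((r2 * v - 1, (1 : ℝ)) - (x, y)) = -(r2 * (1 - y) + 1 - v, 1 - v) := by
          refine Prod.ext ?_ ?_
          · show r2 / 2 * (r2 * v - 1 - x - (1 - y)) = -(r2 * (1 - y) + 1 - v)
            linear_combination (v / 2 - 1 / 2) * e - r2 / 2 * hxy2
          · show r2 / 2 * (r2 * v - 1 - x + (1 - y)) = -(1 - v)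
            linear_combination (v / 2 - 1 / 2) * e - r2 / 2 * hxy2
        rw [e1]
        exact K0_neg hP
      · show x * 1 - y * (r2 * v - 1) = r2 - 1 / 2
        linear_combination hxy2 - r2 * v3 - 1 / 4 * e

end Pool.H61.Sm
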