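import Pool.Agent.H61.Sm.M3

/-! # M4: inscribed hexagons for all boundary points

`bd_cone`: `z ∈ K0` since `K0` is closed (`gauge_le_one_iff_mem_closure` or similar), so
`hf (uc z) ≤ vc z` by `C0_iff`.  If the inequality were strict, `(1 + ε) • z ∈ K0` for a small
`ε > 0` by continuity (`uc z > 0` for points of `K0`), and `gauge K0 z ≤ 1/(1+ε) < 1`.
`gauge_rot`: from `K0_rot` and linearity (gauge as an infimum, or `gauge` of a preimage).
`triple_all`: rotate into the sector. -/

set_option autoImplicit false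

namespace Pool.H61.Sm

open Set

theorem gauge_rot (z : ℝ × ℝ) : gauge K0 (rot z) = gauge K0 z := by
  rw [gauge_def', gauge_def']
  congr 1
  ext r
  simp only [Set.mem_ofPred_eq]
  rw [← rot_smul, K0_rot]

private theorem M4_gauge_iter (k : ℕ) (z : ℝ × ℝ) : gauge K0 (rot^[k] z) = gauge K0 z := by
  induction k generalizing z with
  | zero => rfl
  | succ k ih => rw [Function.iterate_succ_apply, ih, gauge_rot]

private theorem M4_dt2_iter (k : ℕ) (x y : ℝ × ℝ) : dt2 (rot^[k] x) (rot^[k] y) = dt2 x y := by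
  induction k generalizing x y with
  | zero => rfl
  | succ k ih => rw [Function.iterate_succ_apply, Function.iterate_succ_apply, ih, dt2_rot]

private theorem M4_sub_iter (k : ℕ) (x y : ℝ × ℝ) :
    rot^[k] (x - y) = rot^[k] x - rot^[k] y := by
  induction k generalizing x y with
  | zero => rfl
  | succ k ih =>
    rw [Function.iterate_succ_apply, Function.iterate_succ_apply, Function.iterate_succ_apply, ← ih]
    congr 1
    have h1 : x - y = x + (-1 : ℝ) • y := by
      rw [neg_one_smul]; exact sub_eq_add_neg x y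
    rw [h1, rot_add, rot_smul, neg_one_smul]
    exact (sub_eq_add_neg _ _).symm

private theorem M4_mem {z : ℝ × ℝ} (h : gauge K0 z ≤ 1) : z ∈ K0 := by
  have h1 := (gauge_le_one_iff_mem_closure K0_convex K0_nhds).1 h
  rwa [K0_closed.closure_eq] at h1

theorem bd_cone {z : ℝ × ℝ} (hz : Cone z) (h : gauge K0 z = 1) : hf (uc z) = vc z := by
  have hm : z ∈ K0 := M4_mem h.le
  have hC0 : C0 z := hm 0
  have hle : hf (uc z) ≤ vc z := (C0_iff hz).1 hC0
  rcases hle.lt_or_eq with hlt | heq
  swap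
  · exact heq
  exfalso
  have hpos : 0 < uc z := by
    have h1 := C0_side0 hC0
    have h2 := hz.1
    have h3 := r2_lt
    have h4 := r2_pos
    unfold uc
    nlinarith [mul_nonneg h4.le h2, mul_nonneg h4.le (sub_nonneg.2 h1)]
  -- continuity
  have hcuc : Continuous (fun e : ℝ => uc ((1 + e) • z)) := by
    unfold uc
    simp only [Prod.smul_fst, Prod.smul_snd, smul_eq_mul]
    fun_prop
  have hcvc : Continuous (fun e : ℝ => vc ((1 + e) • z)) := by
    unfold vc
    simp only [Prod.smul_snd, smul_eq_mul]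
    fun_prop
  have e0 : uc ((1 + (0 : ℝ)) • z) = uc z := by rw [add_zero, one_smul]
  have e1 : vc ((1 + (0 : ℝ)) • z) = vc z := by rw [add_zero, one_smul]
  have hhf : ContinuousAt hf (uc z) := hf_continuous.continuousAt (Ioi_mem_nhds hpos)
  have hF : ContinuousAt (fun e : ℝ => vc ((1 + e) • z) - hf (uc ((1 + e) • z))) 0 := by
    refine ContinuousAt.sub hcvc.continuousAt ?_
    refine ContinuousAt.comp (g := hf) (f := fun e : ℝ => uc ((1 + e) • z)) ?_ hcuc.continuousAt
    change ContinuousAt hf (uc ((1 + (0 : ℝ)) • z))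
    rw [e0]
    exact hhf
  have hF0 : 0 < (fun e : ℝ => vc ((1 + e) • z) - hf (uc ((1 + e) • z))) 0 := by
    change 0 < vc ((1 + (0 : ℝ)) • z) - hf (uc ((1 + (0 : ℝ)) • z))
    rw [e0, e1]
    linarith
  have hev := hF.eventually (Ioi_mem_nhds hF0)
  rw [Metric.eventually_nhds_iff] at hev
  obtain ⟨d, hd, hball⟩ := hev
  have hd2 : dist (d / 2) (0 : ℝ) < d := by
    rw [Real.dist_eq, sub_zero, abs_of_pos (by linarith)]
    linarith
  have h5 := hball hd2
  have h6 : hf (uc ((1 + d / 2) • z)) ≤ vc ((1 + d / 2) • z) := by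
    have : 0 < vc ((1 + d / 2) • z) - hf (uc ((1 + d / 2) • z)) := h5
    linarith
  have hcone : Cone ((1 + d / 2) • z) := by
    constructor
    · simp only [Prod.smul_snd, smul_eq_mul]
      exact mul_nonneg (by linarith) hz.1
    · simp only [Prod.smul_fst, Prod.smul_snd, smul_eq_mul]
      exact mul_le_mul_of_nonneg_left hz.2 (by linarith)
  have hmem : (1 + d / 2) • z ∈ K0 := mem_of_cone hcone ((C0_iff hcone).2 h6)
  have hg := gauge_le_one_of_mem hmem
  rw [gauge_smul_of_nonneg (by linarith : (0 : ℝ) ≤ 1 + d / 2), h, smul_eq_mul] at hg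
  linarith

theorem triple_all {z : ℝ × ℝ} (h : gauge K0 z = 1) :
    ∃ q : ℝ × ℝ, gauge K0 q ≤ 1 ∧ gauge K0 (q - z) ≤ 1 ∧ dt2 z q = De := by
  obtain ⟨k, hk, hcone⟩ := exists_rot_cone z
  have hg : gauge K0 (rot^[k] z) = 1 := by rw [M4_gauge_iter, h]
  obtain ⟨q, hq1, hq2, hq3⟩ := triple_cone hcone (M4_mem hg.le) (bd_cone hcone hg)
  have hz : rot^[8 - k] (rot^[k] z) = z := by
    rw [← Function.iterate_add_apply, Nat.sub_add_cancel hk.le]
    exact rot_eight z
  refine ⟨rot^[8 - k] q, ?_, ?_, ?_⟩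
  · rw [M4_gauge_iter]
    exact gauge_le_one_of_mem hq1
  · have h1 : rot^[8 - k] q - z = rot^[8 - k] (q - rot^[k] z) := by
      rw [M4_sub_iter, hz]
    rw [h1, M4_gauge_iter]
    exact gauge_le_one_of_mem hq2
  · have h1 := M4_dt2_iter (8 - k) (rot^[k] z) q
    rw [hz] at h1
    rw [h1, hq3]

end Pool.H61.Sm
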