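import Pool.Agent.H61.Sm.M5b

/-! # M5: determinant of a packing lattice

`trip`: every `z` with `N z = 1` has `q` with `N q ≤ 1`, `N (q - z) ≤ 1`, `dt2 z q = D`.
Take the reduced basis `P = m₀ v + n₀ w`, `Q = m₁ v + n₁ w` (`dt2 P Q = dt2 v w`; replace `Q` by
`-Q`, i.e. `(m₁, n₁)` by `(-m₁, -n₁)`, if `dt2 v w < 0`).  Let `λ = N P ≥ 2`, `z = λ⁻¹ P`.  If
`dt2 P Q < λ² D` then `0 < dt2 z (λ⁻¹ Q) < D` and the chord lemma gives `N (Q + n P) < λ` with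
`Q + n P` a nonzero lattice vector (its coordinates `(m₁ + n m₀, n₁ + n n₀)` are not both zero as
the determinant with `(m₀, n₀)` is `±1`): contradiction.  So `|dt2 v w| ≥ λ² D ≥ 4 D`. -/

set_option autoImplicit false

namespace Pool.H61.Sm

private lemma M5_dt2_smul (a b : ℝ) (x y : ℝ × ℝ) : dt2 (a • x) (b • y) = a * b * dt2 x y := by
  unfold dt2
  simp only [Prod.smul_fst, Prod.smul_snd, smul_eq_mul]
  ring

private lemma M5_dt2_comb (a b c d : ℝ) (v w : ℝ × ℝ) :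
    dt2 (a • v + b • w) (c • v + d • w) = (a * d - b * c) * dt2 v w := by
  unfold dt2
  simp only [Prod.smul_fst, Prod.smul_snd, Prod.fst_add, Prod.snd_add, smul_eq_mul]
  ring

theorem Nrm.det_ge {N : ℝ × ℝ → ℝ} (h : Nrm N) {D : ℝ} (hD : 0 < D)
    (trip : ∀ z, N z = 1 → ∃ q, N q ≤ 1 ∧ N (q - z) ≤ 1 ∧ dt2 z q = D)
    (v w : ℝ × ℝ) (hd : dt2 v w ≠ 0)
    (hp : ∀ m n : ℤ, ¬ (m = 0 ∧ n = 0) → 2 ≤ N ((m : ℝ) • v + (n : ℝ) • w)) :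
    4 * D ≤ |dt2 v w| := by
  obtain ⟨m₀, n₀, m₁, n₁, hdet, h0, hmin⟩ := h.basis v w hd
  obtain ⟨e, he1, he2⟩ : ∃ e : ℤ, (e = 1 ∨ e = -1) ∧ (e : ℝ) * dt2 v w = |dt2 v w| := by
    rcases le_total 0 (dt2 v w) with h1 | h1
    · exact ⟨1, Or.inl rfl, by rw [abs_of_nonneg h1]; push_cast; ring⟩
    · exact ⟨-1, Or.inr rfl, by rw [abs_of_nonpos h1]; push_cast; ring⟩
  have he0 : e ≠ 0 := by
    rcases he1 with h1 | h1 <;> omega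
  by_contra hcon
  push Not at hcon
  obtain ⟨P, hP⟩ : ∃ P : ℝ × ℝ, P = (m₀ : ℝ) • v + (n₀ : ℝ) • w := ⟨_, rfl⟩
  obtain ⟨Q, hQ⟩ : ∃ Q : ℝ × ℝ, Q = ((e * m₁ : ℤ) : ℝ) • v + ((e * n₁ : ℤ) : ℝ) • w := ⟨_, rfl⟩
  have hPQ : dt2 P Q = |dt2 v w| := by
    rw [hP, hQ, M5_dt2_comb, ← he2]
    have h1 : (m₀ : ℝ) * n₁ - n₀ * m₁ = 1 := by exact_mod_cast hdet
    push_cast
    linear_combination ((e : ℝ) * dt2 v w) * h1
  have hL : 2 ≤ N P := by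
    rw [hP]
    exact hp m₀ n₀ h0
  have hL0 : 0 < N P := by linarith
  have hz : N ((N P)⁻¹ • P) = 1 := by
    rw [h.hom, abs_of_pos (inv_pos.mpr hL0), inv_mul_cancel₀ hL0.ne']
  obtain ⟨q, hq1, hq2, hq3⟩ := trip _ hz
  have hxy : dt2 ((N P)⁻¹ • P) ((N P)⁻¹ • Q) = (N P)⁻¹ * (N P)⁻¹ * |dt2 v w| := by
    rw [M5_dt2_smul, hPQ]
  have hpos : 0 < dt2 ((N P)⁻¹ • P) ((N P)⁻¹ • Q) := by
    rw [hxy]
    have h1 := inv_pos.mpr hL0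
    have h2 := abs_pos.mpr hd
    positivity
  have hlt : dt2 ((N P)⁻¹ • P) ((N P)⁻¹ • Q) < D := by
    rw [hxy]
    have h1 : (N P)⁻¹ ≤ 1 / 2 := by
      rw [inv_le_comm₀ hL0 (by norm_num)]
      norm_num
      exact hL
    have h2 : 0 < (N P)⁻¹ := inv_pos.mpr hL0
    have h3 : (N P)⁻¹ * (N P)⁻¹ ≤ 1 / 4 := by nlinarith
    have h4 : (N P)⁻¹ * (N P)⁻¹ * |dt2 v w| ≤ 1 / 4 * |dt2 v w| :=
      mul_le_mul_of_nonneg_right h3 (abs_nonneg _)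
    linarith
  obtain ⟨n, hn⟩ := h.chord hz hq1 hq2 hq3 hpos hlt
  have hcomb : (N P)⁻¹ • Q + (n : ℝ) • ((N P)⁻¹ • P) =
      (N P)⁻¹ • (((e * m₁ + n * m₀ : ℤ) : ℝ) • v + ((e * n₁ + n * n₀ : ℤ) : ℝ) • w) := by
    obtain ⟨c, hc⟩ : ∃ c : ℝ, c = (N P)⁻¹ := ⟨_, rfl⟩
    rw [← hc, hQ, hP]
    push_cast
    ext
    · simp only [Prod.smul_fst, Prod.fst_add, smul_eq_mul]
      ring
    · simp only [Prod.smul_snd, Prod.snd_add, smul_eq_mul]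
      ring
  rw [hcomb, h.hom, abs_of_pos (inv_pos.mpr hL0)] at hn
  have hne : ¬ (e * m₁ + n * m₀ = 0 ∧ e * n₁ + n * n₀ = 0) := by
    rintro ⟨h1, h2⟩
    apply he0
    linear_combination m₀ * h2 - n₀ * h1 - e * hdet
  have h1 := hmin _ _ hne
  rw [← hP] at h1
  have h2 : (N P)⁻¹ * N P ≤ (N P)⁻¹ *
      N (((e * m₁ + n * m₀ : ℤ) : ℝ) • v + ((e * n₁ + n * n₀ : ℤ) : ℝ) • w) :=
    mul_le_mul_of_nonneg_left h1 (inv_pos.mpr hL0).le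
  rw [inv_mul_cancel₀ hL0.ne'] at h2
  linarith

end Pool.H61.Sm
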