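import Pool.Agent.H61.Sm.Defs

/-! # M5a: shortest vector of a lattice

`N` is a norm on the plane, so `N ≥ δ ‖·‖` for some `δ > 0` (compactness of the unit sphere; `N` is
continuous because `|N x - N y| ≤ N (x - y) ≤ C ‖x - y‖`), and `‖m v + n w‖ ≥ δ' max |m| |n|`
because `dt2 v w ≠ 0`.  Hence only finitely many lattice vectors have `N ≤ R`, and a shortest
nonzero one exists; it is primitive (divide by the gcd), and Bezout gives the second vector:
`m₀ n₁ - n₀ m₁ = 1`. -/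

set_option autoImplicit false

namespace Pool.H61.Sm

/-- norms of the plane -/
structure Nrm (N : ℝ × ℝ → ℝ) : Prop where
  add : ∀ x y, N (x + y) ≤ N x + N y
  hom : ∀ (c : ℝ) x, N (c • x) = |c| * N x
  pos : ∀ x, x ≠ 0 → 0 < N x

private lemma M5a_zero {N : ℝ × ℝ → ℝ} (h : Nrm N) : N 0 = 0 := by
  have := h.hom 0 0
  simpa using this

private lemma M5a_nonneg {N : ℝ × ℝ → ℝ} (h : Nrm N) (x : ℝ × ℝ) : 0 ≤ N x := by
  by_cases hx : x = 0
  · rw [hx, M5a_zero h]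
  · exact (h.pos x hx).le

private lemma M5a_comb_ne {v w : ℝ × ℝ} (hd : dt2 v w ≠ 0) {s t : ℝ} (hst : ¬ (s = 0 ∧ t = 0)) :
    s • v + t • w ≠ 0 := by
  intro h0
  have h1 : s * v.1 + t * w.1 = 0 := by
    have := congrArg Prod.fst h0
    simpa using this
  have h2 : s * v.2 + t * w.2 = 0 := by
    have := congrArg Prod.snd h0
    simpa using this
  unfold dt2 at hd
  apply hst
  constructor
  · have : s * (v.1 * w.2 - v.2 * w.1) = 0 := by
      linear_combination w.2 * h1 - w.1 * h2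
    exact (mul_eq_zero.mp this).resolve_right hd
  · have : t * (v.1 * w.2 - v.2 * w.1) = 0 := by
      linear_combination v.1 * h2 - v.2 * h1
    exact (mul_eq_zero.mp this).resolve_right hd

private lemma M5a_comb_le {N : ℝ × ℝ → ℝ} (h : Nrm N) (v w : ℝ × ℝ) (s t : ℝ) :
    N (s • v + t • w) ≤ (N v + N w) * max |s| |t| := by
  have h1 := h.add (s • v) (t • w)
  rw [h.hom, h.hom] at h1
  have h2 : |s| * N v ≤ max |s| |t| * N v :=
    mul_le_mul_of_nonneg_right (le_max_left _ _) (M5a_nonneg h v)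
  have h3 : |t| * N w ≤ max |s| |t| * N w :=
    mul_le_mul_of_nonneg_right (le_max_right _ _) (M5a_nonneg h w)
  nlinarith

private lemma M5a_cont {N : ℝ × ℝ → ℝ} (h : Nrm N) (v w : ℝ × ℝ) :
    Continuous (fun p : ℝ × ℝ => N (p.1 • v + p.2 • w)) := by
  have hC : 0 ≤ N v + N w := add_nonneg (M5a_nonneg h v) (M5a_nonneg h w)
  have key : ∀ p q : ℝ × ℝ, N (p.1 • v + p.2 • w) - N (q.1 • v + q.2 • w) ≤
      (N v + N w) * dist p q := by
    intro p q
    have e : p.1 • v + p.2 • w = (q.1 • v + q.2 • w) + ((p.1 - q.1) • v + (p.2 - q.2) • w) := by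
      module
    have h1 := h.add (q.1 • v + q.2 • w) ((p.1 - q.1) • v + (p.2 - q.2) • w)
    rw [← e] at h1
    have h2 := M5a_comb_le h v w (p.1 - q.1) (p.2 - q.2)
    have h3 : dist p q = max |p.1 - q.1| |p.2 - q.2| := by
      rw [Prod.dist_eq, Real.dist_eq, Real.dist_eq]
    rw [h3]
    linarith
  have hL : LipschitzWith (Real.toNNReal (N v + N w))
      (fun p : ℝ × ℝ => N (p.1 • v + p.2 • w)) := by
    apply LipschitzWith.of_dist_le_mul
    intro p q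
    rw [Real.dist_eq, Real.coe_toNNReal _ hC, abs_le]
    constructor
    · have := key q p
      rw [dist_comm] at this
      linarith
    · exact key p q
  exact hL.continuous

theorem Nrm.lower {N : ℝ × ℝ → ℝ} (h : Nrm N) (v w : ℝ × ℝ) (hd : dt2 v w ≠ 0) :
    ∃ δ > 0, ∀ s t : ℝ, δ * max |s| |t| ≤ N (s • v + t • w) := by
  have hcomp : IsCompact (Metric.sphere (0 : ℝ × ℝ) 1) := isCompact_sphere 0 1
  have hne : (Metric.sphere (0 : ℝ × ℝ) 1).Nonempty := ⟨(1, 0), by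
    rw [mem_sphere_zero_iff_norm, Prod.norm_mk]
    simp⟩
  obtain ⟨p, hp, hmin⟩ := hcomp.exists_isMinOn hne (M5a_cont h v w).continuousOn
  refine ⟨N (p.1 • v + p.2 • w), ?_, ?_⟩
  · apply h.pos
    apply M5a_comb_ne hd
    rintro ⟨h1, h2⟩
    have hp0 : p = 0 := Prod.ext h1 h2
    rw [hp0] at hp
    simp at hp
  · intro s t
    by_cases hst : s = 0 ∧ t = 0
    · obtain ⟨rfl, rfl⟩ := hst
      simp [M5a_zero h]
    · set r : ℝ := max |s| |t| with hr
      have hrpos : 0 < r := by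
        rw [hr, lt_max_iff]
        by_contra hcon
        push Not at hcon
        obtain ⟨h1, h2⟩ := hcon
        exact hst ⟨abs_eq_zero.mp (le_antisymm h1 (abs_nonneg _)),
          abs_eq_zero.mp (le_antisymm h2 (abs_nonneg _))⟩
      have hmem : ((s / r, t / r) : ℝ × ℝ) ∈ Metric.sphere (0 : ℝ × ℝ) 1 := by
        rw [mem_sphere_zero_iff_norm, Prod.norm_mk, Real.norm_eq_abs, Real.norm_eq_abs,
          abs_div, abs_div, abs_of_pos hrpos, max_div_div_right hrpos.le, ← hr]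
        exact div_self hrpos.ne'
      have h1 : N (p.1 • v + p.2 • w) ≤ N ((s / r) • v + (t / r) • w) := hmin hmem
      have h2 : s • v + t • w = r • ((s / r) • v + (t / r) • w) := by
        rw [smul_add, smul_smul, smul_smul, mul_div_cancel₀ _ hrpos.ne',
          mul_div_cancel₀ _ hrpos.ne']
      rw [h2, h.hom, abs_of_pos hrpos, mul_comm]
      exact mul_le_mul_of_nonneg_left h1 hrpos.le

theorem Nrm.shortest {N : ℝ × ℝ → ℝ} (h : Nrm N) (v w : ℝ × ℝ) (hd : dt2 v w ≠ 0) :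
    ∃ m₀ n₀ : ℤ, ¬ (m₀ = 0 ∧ n₀ = 0) ∧ ∀ m n : ℤ, ¬ (m = 0 ∧ n = 0) →
      N ((m₀ : ℝ) • v + (n₀ : ℝ) • w) ≤ N ((m : ℝ) • v + (n : ℝ) • w) := by
  obtain ⟨δ, hδ, hlow⟩ := h.lower v w hd
  set B : ℤ := ⌈N v / δ⌉ + 1 with hB
  have hvn : 0 ≤ N v / δ := div_nonneg (M5a_nonneg h v) hδ.le
  have hB1 : 1 ≤ B := by
    have : 0 ≤ ⌈N v / δ⌉ := Int.ceil_nonneg hvn
    omega
  have hBv : N v < δ * B := by
    have h1 : N v / δ ≤ ⌈N v / δ⌉ := Int.le_ceil _
    have h2 : N v / δ < (B : ℝ) := by rw [hB]; push_cast; linarith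
    rw [div_lt_iff₀ hδ] at h2
    linarith
  set T : Finset (ℤ × ℤ) :=
    ((Finset.Icc (-B) B) ×ˢ (Finset.Icc (-B) B)).filter (fun q => ¬ (q.1 = 0 ∧ q.2 = 0)) with hT
  have h10 : ((1, 0) : ℤ × ℤ) ∈ T := by
    rw [hT, Finset.mem_filter, Finset.mem_product, Finset.mem_Icc, Finset.mem_Icc]
    refine ⟨⟨⟨?_, ?_⟩, ⟨?_, ?_⟩⟩, ?_⟩ <;> simp <;> omega
  obtain ⟨q, hq, hqmin⟩ := T.exists_min_image
    (fun q : ℤ × ℤ => N ((q.1 : ℝ) • v + (q.2 : ℝ) • w)) ⟨_, h10⟩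
  refine ⟨q.1, q.2, ?_, ?_⟩
  · rw [hT, Finset.mem_filter] at hq
    exact hq.2
  · intro m n hmn
    by_cases hin : (-B ≤ m ∧ m ≤ B) ∧ (-B ≤ n ∧ n ≤ B)
    · have : ((m, n) : ℤ × ℤ) ∈ T := by
        rw [hT, Finset.mem_filter, Finset.mem_product, Finset.mem_Icc, Finset.mem_Icc]
        exact ⟨hin, hmn⟩
      exact hqmin _ this
    · have h1 : N ((q.1 : ℝ) • v + (q.2 : ℝ) • w) ≤ N v := by
        have := hqmin _ h10
        simpa using this
      have h2 : (B : ℝ) ≤ max |(m : ℝ)| |(n : ℝ)| := by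
        have h3 : B ≤ max |m| |n| := by
          by_contra hcon
          push Not at hcon
          rw [max_lt_iff, abs_lt, abs_lt] at hcon
          apply hin
          refine ⟨⟨?_, ?_⟩, ⟨?_, ?_⟩⟩ <;> omega
        have h4 : ((max |m| |n| : ℤ) : ℝ) = max |(m : ℝ)| |(n : ℝ)| := by
          push_cast
          rfl
        rw [← h4]
        exact_mod_cast h3
      have h3 := hlow m n
      have h4 : δ * B ≤ δ * max |(m : ℝ)| |(n : ℝ)| := mul_le_mul_of_nonneg_left h2 hδ.le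
      linarith

/-- a reduced basis: `P` is a shortest vector -/
theorem Nrm.basis {N : ℝ × ℝ → ℝ} (h : Nrm N) (v w : ℝ × ℝ) (hd : dt2 v w ≠ 0) :
    ∃ m₀ n₀ m₁ n₁ : ℤ, m₀ * n₁ - n₀ * m₁ = 1 ∧ ¬ (m₀ = 0 ∧ n₀ = 0) ∧
      ∀ m n : ℤ, ¬ (m = 0 ∧ n = 0) →
      N ((m₀ : ℝ) • v + (n₀ : ℝ) • w) ≤ N ((m : ℝ) • v + (n : ℝ) • w) := by
  obtain ⟨m₀, n₀, hne, hmin⟩ := h.shortest v w hd
  have hgpos : 0 < Int.gcd m₀ n₀ := by
    rw [Int.gcd_pos_iff]
    by_contra hcon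
    push Not at hcon
    exact hne hcon
  have hg1 : Int.gcd m₀ n₀ = 1 := by
    obtain ⟨a, ha⟩ := Int.gcd_dvd_left (a := m₀) (b := n₀)
    obtain ⟨b, hb⟩ := Int.gcd_dvd_right (a := m₀) (b := n₀)
    set g : ℕ := Int.gcd m₀ n₀ with hgdef
    have hab : ¬ (a = 0 ∧ b = 0) := by
      rintro ⟨h1, h2⟩
      apply hne
      rw [h1, mul_zero] at ha
      rw [h2, mul_zero] at hb
      exact ⟨ha, hb⟩
    have h1 := hmin a b hab
    have h2 : (m₀ : ℝ) • v + (n₀ : ℝ) • w = (g : ℝ) • ((a : ℝ) • v + (b : ℝ) • w) := by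
      have e1 : (m₀ : ℝ) = (g : ℝ) * a := by exact_mod_cast ha
      have e2 : (n₀ : ℝ) = (g : ℝ) * b := by exact_mod_cast hb
      rw [e1, e2, smul_add, smul_smul, smul_smul]
    rw [h2, h.hom] at h1
    have h3 : 0 < N ((a : ℝ) • v + (b : ℝ) • w) := by
      apply h.pos
      apply M5a_comb_ne hd
      rintro ⟨h4, h5⟩
      exact hab ⟨by exact_mod_cast h4, by exact_mod_cast h5⟩
    have h4 : |(g : ℝ)| ≤ 1 := by
      by_contra hcon
      push Not at hcon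
      nlinarith
    rw [Nat.abs_cast] at h4
    have h5 : g ≤ 1 := by exact_mod_cast h4
    omega
  refine ⟨m₀, n₀, -Int.gcdB m₀ n₀, Int.gcdA m₀ n₀, ?_, hne, hmin⟩
  have hb := Int.gcd_eq_gcd_ab m₀ n₀
  rw [hg1] at hb
  push_cast at hb
  linarith

end Pool.H61.Sm
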