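import Pool.Agent.H61.Sm.M5a

/-! # M5b: the chord lemma

`N z = 1`, `N q ≤ 1`, `N (q - z) ≤ 1`, `dt2 z q = D > 0`.  If `0 < dt2 z x < D`, put
`s = dt2 z x / D ∈ (0, 1)`; `x - s q` is a multiple `τ z` of `z` (`dt2 z (x - s q) = 0`, `z ≠ 0`).
Choose the integer `n` with `-1 < τ + n < 1 - s` (an open interval of length `2 - s > 1`).
With `σ = τ + n`: `N (s q + σ z) < 1`:
* `0 ≤ σ`: `≤ s + σ < 1`;
* `-s ≤ σ ≤ 0`: `s q + σ z = (s + σ) q - σ (q - z)`, `≤ (s + σ) - σ = s < 1`;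
* `σ ≤ -s`: `s q + σ z = s (q - z) + (σ + s) z`, `≤ s - σ - s = -σ < 1`. -/

set_option autoImplicit false

namespace Pool.H61.Sm

theorem Nrm.chord {N : ℝ × ℝ → ℝ} (h : Nrm N) {D : ℝ} {z q x : ℝ × ℝ} (hz : N z = 1)
    (hq : N q ≤ 1) (hqz : N (q - z) ≤ 1) (hD : dt2 z q = D) (h0 : 0 < dt2 z x)
    (h1 : dt2 z x < D) : ∃ n : ℤ, N (x + (n : ℝ) • z) < 1 := by
  have hN0 : N 0 = 0 := by
    have := h.hom 0 0
    simpa using this
  have hz0 : z ≠ 0 := by
    rintro rfl
    rw [hN0] at hz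
    exact zero_ne_one hz
  have hDpos : 0 < D := h0.trans h1
  have hzz : 0 < z.1 ^ 2 + z.2 ^ 2 := by
    by_contra hc
    have h1' : z.1 = 0 := by nlinarith [sq_nonneg z.1, sq_nonneg z.2]
    have h2' : z.2 = 0 := by nlinarith [sq_nonneg z.1, sq_nonneg z.2]
    exact hz0 (Prod.ext h1' h2')
  set s : ℝ := dt2 z x / D with hs
  have hs0 : 0 < s := div_pos h0 hDpos
  have hs1 : s < 1 := by rw [hs, div_lt_one hDpos]; exact h1
  set y : ℝ × ℝ := x - s • q with hy
  have hy1 : y.1 = x.1 - s * q.1 := by simp [hy]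
  have hy2 : y.2 = x.2 - s * q.2 := by simp [hy]
  have hdy : z.1 * y.2 - z.2 * y.1 = 0 := by
    have e1 : s * D = dt2 z x := by rw [hs]; field_simp
    rw [← hD] at e1
    unfold dt2 at e1
    rw [hy1, hy2]
    linear_combination -e1
  set τ : ℝ := (z.1 * y.1 + z.2 * y.2) / (z.1 ^ 2 + z.2 ^ 2) with hτ
  have hyτ : y = τ • z := by
    refine Prod.ext ?_ ?_
    · simp only [Prod.smul_fst, smul_eq_mul, hτ]
      rw [div_mul_eq_mul_div, eq_div_iff hzz.ne']
      linear_combination (-z.2) * hdy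
    · simp only [Prod.smul_snd, smul_eq_mul, hτ]
      rw [div_mul_eq_mul_div, eq_div_iff hzz.ne']
      linear_combination z.1 * hdy
  have hx : x = s • q + τ • z := by
    rw [← hyτ, hy]
    abel
  refine ⟨-⌊τ + s⌋, ?_⟩
  set σ : ℝ := τ + ((-⌊τ + s⌋ : ℤ) : ℝ) with hσ
  have hf : σ = Int.fract (τ + s) - s := by
    rw [hσ, Int.fract]
    push_cast
    ring
  have hσ1 : -s ≤ σ := by
    rw [hf]
    linarith [Int.fract_nonneg (τ + s)]
  have hσ2 : σ < 1 - s := by
    rw [hf]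
    linarith [Int.fract_lt_one (τ + s)]
  have hxs : x + (((-⌊τ + s⌋ : ℤ) : ℝ)) • z = s • q + σ • z := by
    rw [hx, hσ, add_smul, add_assoc]
  rw [hxs]
  rcases le_total 0 σ with hc | hc
  · calc N (s • q + σ • z) ≤ N (s • q) + N (σ • z) := h.add _ _
      _ = s * N q + σ := by rw [h.hom, h.hom, abs_of_pos hs0, abs_of_nonneg hc, hz, mul_one]
      _ ≤ s * 1 + σ := by gcongr
      _ < 1 := by linarith
  · have e : s • q + σ • z = (s + σ) • q + (-σ) • (q - z) := by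
      clear_value σ
      refine Prod.ext ?_ ?_
      · simp only [Prod.fst_add, Prod.smul_fst, Prod.fst_sub, smul_eq_mul]
        ring
      · simp only [Prod.snd_add, Prod.smul_snd, Prod.snd_sub, smul_eq_mul]
        ring
    rw [e]
    calc N ((s + σ) • q + (-σ) • (q - z)) ≤ N ((s + σ) • q) + N ((-σ) • (q - z)) := h.add _ _
      _ = (s + σ) * N q + (-σ) * N (q - z) := by
          rw [h.hom, h.hom, abs_of_nonneg (by linarith : 0 ≤ s + σ),
            abs_of_nonneg (by linarith : 0 ≤ -σ)]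
      _ ≤ (s + σ) * 1 + (-σ) * 1 := by
          have a1 : (s + σ) * N q ≤ (s + σ) * 1 :=
            mul_le_mul_of_nonneg_left hq (by linarith)
          have a2 : (-σ) * N (q - z) ≤ (-σ) * 1 :=
            mul_le_mul_of_nonneg_left hqz (by linarith)
          linarith
      _ < 1 := by linarith

end Pool.H61.Sm
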