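import Pool.Agent.H61.Sm.M6a

/-! # M6: area of the smoothed octagon (upper bound)

`K0 ⊆ ⋃_{k < 8} (rot^[k]) ⁻¹' {z ∈ K0 | Cone z}`, and `rot^[k]` preserves the volume (determinant
`1`). -/

set_option autoImplicit false

namespace Pool.H61.Sm

open MeasureTheory Set

private lemma M6_det :
    LinearMap.det (Matrix.toLin (Module.Basis.finTwoProd ℝ) (Module.Basis.finTwoProd ℝ)
      !![r2 / 2, -(r2 / 2); r2 / 2, r2 / 2]) = 1 := by
  rw [LinearMap.det_toLin, Matrix.det_fin_two_of]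
  have := r2_sq
  nlinarith

theorem volume_rot (S : Set (ℝ × ℝ)) : volume (rot ⁻¹' S) = volume S := by
  set f := Matrix.toLin (Module.Basis.finTwoProd ℝ) (Module.Basis.finTwoProd ℝ)
      !![r2 / 2, -(r2 / 2); r2 / 2, r2 / 2] with hf
  have hdet : LinearMap.det f = 1 := M6_det
  have h1 : rot ⁻¹' S = f ⁻¹' S := by
    ext z
    simp only [mem_preimage]
    have : rot z = f z := by
      rw [hf, Matrix.toLin_finTwoProd_apply]
      unfold rot
      ext
      · ring
      · ring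
    rw [this]
  rw [h1, Measure.addHaar_preimage_linearMap volume (by rw [hdet]; exact one_ne_zero), hdet]
  simp

private lemma M6_iter (k : ℕ) (S : Set (ℝ × ℝ)) : volume (rot^[k] ⁻¹' S) = volume S := by
  induction k with
  | zero => rfl
  | succ k ih =>
    rw [Function.iterate_succ, preimage_comp, volume_rot, ih]

private lemma M6_mem (k : ℕ) (z : ℝ × ℝ) : rot^[k] z ∈ K0 ↔ z ∈ K0 := by
  induction k generalizing z with
  | zero => rfl
  | succ k ih => rw [Function.iterate_succ_apply, ih, K0_rot]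

theorem volume_K0 : volume K0 ≤ ENNReal.ofReal (16 - 8 * r2 - 2 * Real.log 2) := by
  have hsub : K0 ⊆ ⋃ k ∈ Finset.range 8, rot^[k] ⁻¹' {z : ℝ × ℝ | z ∈ K0 ∧ Cone z} := by
    intro z hz
    obtain ⟨k, hk, hc⟩ := exists_rot_cone z
    rw [mem_iUnion₂]
    exact ⟨k, Finset.mem_range.2 hk, (M6_mem k z).2 hz, hc⟩
  have h0 : 0 ≤ 2 - r2 - Real.log 2 / 4 := by
    have h1 := r2_lt
    have h2 := Real.log_two_lt_d9
    linarith
  calc volume K0 ≤ volume (⋃ k ∈ Finset.range 8, rot^[k] ⁻¹' {z : ℝ × ℝ | z ∈ K0 ∧ Cone z}) :=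
        measure_mono hsub
    _ ≤ ∑ k ∈ Finset.range 8, volume (rot^[k] ⁻¹' {z : ℝ × ℝ | z ∈ K0 ∧ Cone z}) :=
        measure_biUnion_finset_le _ _
    _ = 8 * volume {z : ℝ × ℝ | z ∈ K0 ∧ Cone z} := by
        simp only [M6_iter, Finset.sum_const, Finset.card_range, nsmul_eq_mul, Nat.cast_ofNat]
    _ ≤ 8 * ENNReal.ofReal (2 - r2 - Real.log 2 / 4) := by
        gcongr
        exact volume_sector
    _ = ENNReal.ofReal (16 - 8 * r2 - 2 * Real.log 2) := by
        have : (8 : ENNReal) = ENNReal.ofReal 8 := by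
          rw [ENNReal.ofReal_ofNat]
        rw [this, ← ENNReal.ofReal_mul (by norm_num)]
        congr 1
        ring

end Pool.H61.Sm
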