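import Pool.Agent.H61.Sm.M2

/-! # M6a: area of the part of `K0` in the sector

`z ∈ K0`, `Cone z` gives `hf (uc z) ≤ vc z ≤ 1`, `uc z ≤ 1`, and `1 - √2/2 ≤ uc z`
(because `hf u > 1` for `u < 1 - √2/2`).  The linear map `z ↦ (uc z, vc z)` (affine) has determinant
of absolute value `√2/2`; so the measure of the part is at most `√2` times the measure of
`{(u, v) | 1 - √2/2 ≤ u ≤ 1, hf u ≤ v ≤ 1}`, i.e. (volume_regionBetween_eq_integral)
`√2 ∫_{1-√2/2}^{1} (1 - hf u) du = √2 [ (√2/2) (√2/2 - 1/2)² + (√2/2 - 1/2) - (√2/4) (log 2)/2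
 + 1/(4√2) ] = 2 - √2 - (log 2)/4`. -/

set_option autoImplicit false

namespace Pool.H61.Sm

open MeasureTheory Set

private lemma M6a_lt1 : 1 - r2 / 2 < 1 / 2 := by
  have := r2_gt
  linarith

private lemma M6a_lt2 : (1 / 2 : ℝ) < r2 / 2 := by
  have := r2_gt
  linarith

private lemma M6a_lt3 : r2 / 2 < 1 := by
  have := r2_lt
  linarith

private lemma M6a_pos : 0 < 1 - r2 / 2 := by
  have := r2_lt
  linarith

private lemma M6a_int {a b : ℝ} (ha : 0 < a) (hb : 0 < b) :
    IntervalIntegrable (fun u => 1 - hf u) volume a b := by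
  apply ContinuousOn.intervalIntegrable
  apply ContinuousOn.sub continuousOn_const
  apply hf_continuous.mono
  intro x hx
  rw [mem_Ioi]
  rcases le_total a b with h | h
  · rw [uIcc_of_le h] at hx
    linarith [hx.1]
  · rw [uIcc_of_ge h] at hx
    linarith [hx.1]

private lemma M6a_log : Real.log (r2 / 2 / (1 / 2)) = Real.log 2 / 2 := by
  have h1 : r2 / 2 / (1 / 2) = r2 := by ring
  rw [h1]
  unfold r2
  rw [Real.log_sqrt (by norm_num)]

theorem hf_integral :
    ∫ u in (1 - r2 / 2)..1, (1 - hf u) = (2 - r2 - Real.log 2 / 4) / r2 := by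
  have hp := M6a_pos
  have hr := r2_pos
  have h1 := M6a_lt1
  have h2 := M6a_lt2
  have h3 := M6a_lt3
  have hr2 := r2_sq
  rw [← intervalIntegral.integral_add_adjacent_intervals
      (M6a_int hp (by norm_num : (0 : ℝ) < 1 / 2)) (M6a_int (by norm_num) one_pos),
    ← intervalIntegral.integral_add_adjacent_intervals
      (M6a_int (by norm_num : (0 : ℝ) < 1 / 2) (by positivity : 0 < r2 / 2))
      (M6a_int (by positivity) one_pos)]
  have e1 : ∫ u in (1 - r2 / 2)..(1 / 2), (1 - hf u) = -1 / 2 + 3 * r2 / 8 := by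
    have c1 : ∫ u in (1 - r2 / 2)..(1 / 2), (1 - hf u) =
        ∫ u in (1 - r2 / 2)..(1 / 2), ((1 - r2) + r2 * u) := by
      apply intervalIntegral.integral_congr
      intro u hu
      rw [uIcc_of_le h1.le] at hu
      simp only [hf, if_pos hu.2]
      ring
    rw [c1, intervalIntegral.integral_add (by simp)
        (Continuous.intervalIntegrable (by fun_prop) _ _),
      intervalIntegral.integral_const, intervalIntegral.integral_const_mul, integral_id,
      smul_eq_mul]
    nlinarith
  have e2 : ∫ u in (1 / 2)..(r2 / 2), (1 - hf u) =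
      r2 / 2 - 1 / 2 - r2 / 4 * (Real.log 2 / 2) := by
    have c1 : ∫ u in (1 / 2)..(r2 / 2), (1 - hf u) =
        ∫ u in (1 / 2)..(r2 / 2), (1 - r2 / 4 * u⁻¹) := by
      apply intervalIntegral.integral_congr
      intro u hu
      rw [uIcc_of_le h2.le] at hu
      rcases hu.1.eq_or_lt with h | h
      · subst h
        simp only [hf, if_pos le_rfl]
        ring
      · simp only [hf, if_neg (not_le.2 h), if_pos hu.2]
        ring
    have hinv : IntervalIntegrable (fun u : ℝ => r2 / 4 * u⁻¹) volume (1 / 2) (r2 / 2) := by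
      apply IntervalIntegrable.const_mul
      apply intervalIntegral.intervalIntegrable_inv
      · intro x hx
        rw [uIcc_of_le h2.le] at hx
        linarith [hx.1]
      · exact continuousOn_id
    rw [c1, intervalIntegral.integral_sub (by simp) hinv,
      intervalIntegral.integral_const, intervalIntegral.integral_const_mul,
      integral_inv_of_pos (by norm_num) (by positivity), M6a_log, smul_eq_mul, mul_one]
  have e3 : ∫ u in (r2 / 2)..1, (1 - hf u) = r2 / 8 := by
    have c1 : ∫ u in (r2 / 2)..1, (1 - hf u) = ∫ u in (r2 / 2)..1, (r2 / 2 * u) := by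
      apply intervalIntegral.integral_congr
      intro u hu
      rw [uIcc_of_le h3.le] at hu
      rcases hu.1.eq_or_lt with h | h
      · subst h
        simp only [hf, if_neg (not_le.2 h2), if_pos le_rfl]
        have : r2 / 4 / (r2 / 2) = 1 / 2 := by field_simp; norm_num
        rw [this]
        nlinarith
      · simp only [hf, if_neg (not_le.2 (h2.trans h)), if_neg (not_le.2 h)]
        ring
    rw [c1, intervalIntegral.integral_const_mul, integral_id]
    have : r2 ^ 3 = 2 * r2 := by
      calc r2 ^ 3 = r2 ^ 2 * r2 := by ring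
        _ = 2 * r2 := by rw [hr2]
    nlinarith
  rw [e1, e2, e3, eq_div_iff hr.ne']
  linear_combination (1 - Real.log 2 / 8) * hr2

private lemma M6a_det :
    LinearMap.det (Matrix.toLin (Module.Basis.finTwoProd ℝ) (Module.Basis.finTwoProd ℝ)
      !![-(r2 / 2), r2 / 2; 0, -1]) = r2 / 2 := by
  rw [LinearMap.det_toLin, Matrix.det_fin_two_of]
  ring

theorem volume_uv (S : Set (ℝ × ℝ)) :
    volume ((fun z : ℝ × ℝ => (uc z, vc z)) ⁻¹' S) = ENNReal.ofReal r2 * volume S := by
  have hr := r2_pos
  set f := Matrix.toLin (Module.Basis.finTwoProd ℝ) (Module.Basis.finTwoProd ℝ)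
      !![-(r2 / 2), r2 / 2; 0, -1] with hf
  have hdet : LinearMap.det f = r2 / 2 := M6a_det
  have h1 : (fun z : ℝ × ℝ => (uc z, vc z)) ⁻¹' S =
      f ⁻¹' ((fun w : ℝ × ℝ => (1, 1) + w) ⁻¹' S) := by
    ext z
    simp only [mem_preimage]
    have : (uc z, vc z) = (1, 1) + f z := by
      rw [hf, Matrix.toLin_finTwoProd_apply]
      unfold uc vc
      ext
      · simp only [Prod.mk_add_mk]
        ring
      · simp only [Prod.mk_add_mk]
        ring
    rw [this]
  rw [h1, Measure.addHaar_preimage_linearMap volume (by rw [hdet]; positivity),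
    measure_preimage_add, hdet]
  congr 2
  rw [abs_of_pos (by positivity)]
  have hr2 := r2_sq
  field_simp
  linarith

private lemma M6a_meas : Measurable hf := by
  unfold hf
  apply Measurable.ite measurableSet_Iic (by fun_prop)
  apply Measurable.ite measurableSet_Iic
  · exact measurable_const.div measurable_id
  · fun_prop

/-- the image of the sector -/
private def M6a_T : Set (ℝ × ℝ) := {p | (1 - r2 / 2 ≤ p.1 ∧ p.1 ≤ 1) ∧ hf p.1 ≤ p.2 ∧ p.2 ≤ 1}

private lemma M6a_T_meas : MeasurableSet M6a_T := by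
  unfold M6a_T
  apply MeasurableSet.inter
  · exact (measurableSet_le measurable_const measurable_fst).inter
      (measurableSet_le measurable_fst measurable_const)
  · exact (measurableSet_le (M6a_meas.comp measurable_fst) measurable_snd).inter
      (measurableSet_le measurable_snd measurable_const)

private lemma M6a_hf_le {u : ℝ} (h1 : 1 - r2 / 2 ≤ u) (h2 : u ≤ 1) : hf u ≤ 1 := by
  have hr := r2_pos
  have hr2 := r2_sq
  unfold hf
  split_ifs with h h'
  · nlinarith
  · rw [div_le_one (by linarith)]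
    have := r2_lt
    linarith
  · nlinarith [mul_pos hr (show 0 < u by linarith [r2_lt])]

private lemma M6a_T_vol : volume M6a_T = ENNReal.ofReal ((2 - r2 - Real.log 2 / 4) / r2) := by
  have hle : 1 - r2 / 2 ≤ 1 := by
    have := r2_pos
    linarith
  have h1 : volume M6a_T =
      ∫⁻ u : ℝ, volume (Prod.mk u ⁻¹' M6a_T) := Measure.prod_apply M6a_T_meas
  have h2 : ∀ u : ℝ, volume (Prod.mk u ⁻¹' M6a_T) =
      (Icc (1 - r2 / 2) 1).indicator (fun u => ENNReal.ofReal (1 - hf u)) u := by
    intro u
    by_cases hu : u ∈ Icc (1 - r2 / 2) 1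
    · rw [indicator_of_mem hu, ← Real.volume_Icc]
      congr 1
      ext v
      simp only [M6a_T, mem_preimage, mem_ofPred_eq, mem_Icc]
      exact ⟨fun h => h.2, fun h => ⟨hu, h⟩⟩
    · rw [indicator_of_notMem hu]
      have : Prod.mk u ⁻¹' M6a_T = ∅ := by
        apply eq_empty_of_forall_notMem
        intro v hv
        exact hu hv.1
      rw [this, measure_empty]
  have hint : IntegrableOn (fun u => 1 - hf u) (Icc (1 - r2 / 2) 1) volume := by
    have := M6a_int M6a_pos one_pos
    rw [intervalIntegrable_iff_integrableOn_Icc_of_le hle] at this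
    exact this
  rw [h1, lintegral_congr h2, lintegral_indicator measurableSet_Icc,
    ← ofReal_integral_eq_lintegral_ofReal hint, ← hf_integral,
    intervalIntegral.integral_of_le hle, integral_Icc_eq_integral_Ioc]
  rw [Filter.EventuallyLE, ae_restrict_iff' measurableSet_Icc]
  apply Filter.Eventually.of_forall
  intro u hu
  have := M6a_hf_le hu.1 hu.2
  simp only [Pi.zero_apply]
  linarith

theorem volume_sector :
    volume {z : ℝ × ℝ | z ∈ K0 ∧ Cone z} ≤ ENNReal.ofReal (2 - r2 - Real.log 2 / 4) := by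
  have hr := r2_pos
  have hsub : {z : ℝ × ℝ | z ∈ K0 ∧ Cone z} ⊆ (fun z : ℝ × ℝ => (uc z, vc z)) ⁻¹' M6a_T := by
    rintro z ⟨hz, hc⟩
    have hC : C0 z := hz 0
    have h1 := (C0_iff hc).1 hC
    have h2 := C0_side0 hC
    simp only [mem_preimage, M6a_T, mem_ofPred_eq]
    obtain ⟨hc1, hc2⟩ := hc
    refine ⟨⟨?_, ?_⟩, h1, ?_⟩
    · unfold uc
      nlinarith
    · unfold uc
      nlinarith
    · unfold vc
      linarith
  refine le_trans (measure_mono hsub) ?_
  rw [volume_uv, M6a_T_vol, ← ENNReal.ofReal_mul hr.le]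
  apply le_of_eq
  congr 1
  field_simp

end Pool.H61.Sm
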