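import Pool.Agent.H61.Sm.Defs

/-! # M7a: packings and the gauge

`gauge_ge_two`: if `gauge K z < 2` for `z = m v + n w`, then `gauge K (z/2) < 1`, so
`z/2 ∈ interior K` (`K` convex, a neighbourhood of `0`: `gauge_lt_one_iff_mem_interior`), also
`-z/2 ∈ interior K`; take `x = -z/2`. -/

set_option autoImplicit false

namespace Pool.H61.Sm

open MeasureTheory Set

/-- `v, w` generate a packing lattice of `K` -/
def Pack (K : Set (ℝ × ℝ)) (v w : ℝ × ℝ) : Prop :=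
  v.1 * w.2 - v.2 * w.1 ≠ 0 ∧
    (∀ m n : ℤ, ¬ (m = 0 ∧ n = 0) →
      ∀ x ∈ interior K, x + ((m : ℝ) • v + (n : ℝ) • w) ∉ interior K)

theorem gauge_ge_two {K : Set (ℝ × ℝ)} (hc : Convex ℝ K) (hn : K ∈ nhds (0 : ℝ × ℝ))
    (hs : ∀ x ∈ K, -x ∈ K) {v w : ℝ × ℝ} (h : Pack K v w) {m n : ℤ} (hmn : ¬ (m = 0 ∧ n = 0)) :
    2 ≤ gauge K ((m : ℝ) • v + (n : ℝ) • w) := by
  by_contra hlt
  push Not at hlt
  set z : ℝ × ℝ := (m : ℝ) • v + (n : ℝ) • w with hz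
  have hhalf : gauge K ((1 / 2 : ℝ) • z) < 1 := by
    rw [gauge_smul_of_nonneg (by norm_num : (0 : ℝ) ≤ 1 / 2), smul_eq_mul]
    linarith
  have hsym : gauge K (-((1 / 2 : ℝ) • z)) = gauge K ((1 / 2 : ℝ) • z) :=
    gauge_neg (fun x hx => hs x hx) _
  have h1 : (1 / 2 : ℝ) • z ∈ interior K := (gauge_lt_one_iff_mem_interior hc hn).mp hhalf
  have h2 : -((1 / 2 : ℝ) • z) ∈ interior K :=
    (gauge_lt_one_iff_mem_interior hc hn).mp (by rw [hsym]; exact hhalf)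
  have h3 := h.2 m n hmn _ h2
  apply h3
  have e : -((1 / 2 : ℝ) • z) + z = (1 / 2 : ℝ) • z := by module
  rw [← hz, e]
  exact h1

end Pool.H61.Sm
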