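import Pool.Agent.H61.Sm.M4
import Pool.Agent.H61.Sm.M5
import Pool.Agent.H61.Sm.M6
import Pool.Agent.H61.Sm.M7a
import Pool.Agent.H61.Sm.M7b

/-! # M8: the smoothed octagon has no lattice packing of density greater than `c_R`

`gauge K0` is a norm (`K0` convex, symmetric, bounded, a neighbourhood of `0`); `Nrm.det_ge` with
`triple_all` and `gauge_ge_two` gives `|dt2 v w| ≥ 4 De = 4√2 - 2`, and
`(16 - 8√2 - 2 log 2) / (4√2 - 2) = (8 - √32 - log 2) / (√8 - 1)`. -/

set_option autoImplicit false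

namespace Pool.H61.Sm

open MeasureTheory Set

/-- Reinhardt's constant -/
noncomputable def cR : ℝ := (8 - Real.sqrt 32 - Real.log 2) / (Real.sqrt 8 - 1)

theorem nrm_gauge : Nrm (gauge K0) := by
  have habs : Absorbent ℝ K0 := absorbent_nhds_zero K0_nhds
  refine ⟨fun x y => gauge_add_le K0_convex habs x y, ?_, ?_⟩
  · intro c x
    rcases le_total 0 c with hc | hc
    · rw [gauge_smul_of_nonneg hc, abs_of_nonneg hc, smul_eq_mul]
    · have h1 : c • x = -((-c) • x) := by rw [neg_smul, neg_neg]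
      rw [h1, gauge_neg (fun x hx => K0_neg hx), gauge_smul_of_nonneg (by linarith),
        abs_of_nonpos hc, smul_eq_mul]
  · intro x hx
    exact (gauge_pos habs
      ((NormedSpace.isVonNBounded_iff ℝ).2 K0_compact.isBounded)).2 hx

private theorem M8_cR : cR = (16 - 8 * r2 - 2 * Real.log 2) / (4 * De) := by
  have h32 : Real.sqrt 32 = 4 * r2 := by
    rw [show (32 : ℝ) = 4 ^ 2 * 2 by norm_num, Real.sqrt_mul (by norm_num),
      Real.sqrt_sq (by norm_num)]
    rfl
  have h8 : Real.sqrt 8 = 2 * r2 := by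
    rw [show (8 : ℝ) = 2 ^ 2 * 2 by norm_num, Real.sqrt_mul (by norm_num),
      Real.sqrt_sq (by norm_num)]
    rfl
  have hr := r2_gt
  unfold cR De
  rw [h32, h8, div_eq_div_iff (by linarith) (by linarith)]
  ring

theorem octagon_density {v w : ℝ × ℝ} (h : Pack K0 v w) :
    (volume K0).toReal / |v.1 * w.2 - v.2 * w.1| ≤ cR := by
  have hr := r2_gt
  have hr' := r2_lt
  have hD : 0 < De := by unfold De; linarith
  have hlog : Real.log 2 < 0.6931471808 := Real.log_two_lt_d9
  have hA : 0 ≤ 16 - 8 * r2 - 2 * Real.log 2 := by linarith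
  have h1 : 4 * De ≤ |v.1 * w.2 - v.2 * w.1| :=
    nrm_gauge.det_ge hD (fun z hz => triple_all hz) v w h.1
      (fun m n hmn => gauge_ge_two K0_convex K0_nhds (fun x hx => K0_neg hx) h hmn)
  have h2 : (volume K0).toReal ≤ 16 - 8 * r2 - 2 * Real.log 2 :=
    ENNReal.toReal_le_of_le_ofReal hA volume_K0
  rw [M8_cR]
  exact div_le_div₀ hA h2 (by linarith) h1

theorem octagon_interior : (interior K0).Nonempty :=
  ⟨0, mem_interior_iff_mem_nhds.2 K0_nhds⟩

end Pool.H61.Sm
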